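import Pool.Agent.H25.DM.Elim

/-!
# The nontrivial part of a weight one series
-/

set_option autoImplicit false

namespace H25.DM

open MeasureTheory

noncomputable section

variable {T Λ : Type} [AddCommGroup Λ] {χ : T → Λ → ℂ}

/-- characters with a probability measure for which the nontrivial ones have nonpositive mean -/
structure IsCharM [MeasurableSpace T] (χ : T → Λ → ℂ) (μ : Measure T) : Prop
    extends IsChar χ where
  int : ∀ l, Integrable (fun t => (χ t l).re) μ
  avg : ∀ l, l ≠ 0 → ∫ t, (χ t l).re ∂μ ≤ 0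
  minus : ∀ l, l ≠ 0 → ∃ t, χ t l = -1

theorem IsChar.one_sub_re_nonneg (hχ : IsChar χ) (t : T) (l : Λ) : 0 ≤ 1 - (χ t l).re := by
  have h1 := Complex.re_le_norm (χ t l)
  rw [hχ.norm] at h1
  linarith

theorem IsChar.one_sub_re_le (hχ : IsChar χ) (t : T) (l : Λ) : 1 - (χ t l).re ≤ 2 := by
  have h1 := Complex.abs_re_le_norm (χ t l)
  rw [hχ.norm] at h1
  linarith [(abs_le.1 h1).1]

theorem IsChar.norm_one_sub_le (hχ : IsChar χ) (t : T) (l : Λ) : ‖1 - χ t l‖ ≤ 2 := by
  have h1 := norm_sub_le (1 : ℂ) (χ t l)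
  rw [hχ.norm, norm_one] at h1
  linarith

theorem summable_re (hχ : IsChar χ) {d : Λ → ℝ} (hd : ∀ l, 0 ≤ d l) (hs : Summable d) (t : T) :
    Summable fun l => d l * (1 - (χ t l).re) :=
  Summable.of_nonneg_of_le (fun l => mul_nonneg (hd l) (hχ.one_sub_re_nonneg t l))
    (fun l => mul_le_mul_of_nonneg_left (hχ.one_sub_re_le t l) (hd l)) (hs.mul_right 2)

theorem summable_norm_one_sub (hχ : IsChar χ) {d : Λ → ℝ} (hd : ∀ l, 0 ≤ d l) (hs : Summable d) (t : T) :
    Summable fun l => d l * ‖1 - χ t l‖ :=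
  Summable.of_nonneg_of_le (fun l => mul_nonneg (hd l) (norm_nonneg _))
    (fun l => mul_le_mul_of_nonneg_left (hχ.norm_one_sub_le t l) (hd l)) (hs.mul_right 2)

theorem hasSum_sub {c : Λ → ℝ} {s : ℝ} (hc : HasSum c s) {z : ℂ} {t : T}
    (h : HasSum (fun l => (c l : ℂ) * χ t l) z) :
    HasSum (fun l => (c l : ℂ) * (1 - χ t l)) ((s : ℂ) - z) := by
  have h1 := (Complex.hasSum_ofReal.2 hc).sub h
  have h2 : (fun l => (c l : ℂ) * (1 - χ t l)) = fun l => (c l : ℂ) - (c l : ℂ) * χ t l := by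
    funext l; ring
  rw [h2]
  exact h1

theorem hasSum_sub_re {c : Λ → ℝ} {s : ℝ} (hc : HasSum c s) {z : ℂ} {t : T}
    (h : HasSum (fun l => (c l : ℂ) * χ t l) z) :
    HasSum (fun l => c l * (1 - (χ t l).re)) (s - z.re) := by
  have h1 := Complex.hasSum_re (hasSum_sub hc h)
  have h2 : (fun l => ((c l : ℂ) * (1 - χ t l)).re) = fun l => c l * (1 - (χ t l).re) := by
    funext l
    rw [Complex.re_ofReal_mul]
    simp
  rw [h2] at h1
  simpa using h1

theorem norm_sub_le_tsum (hχ : IsChar χ) {c : Λ → ℝ} (hc0 : ∀ l, 0 ≤ c l) {s : ℝ} (hc : HasSum c s)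
    {z : ℂ} {t : T} (h : HasSum (fun l => (c l : ℂ) * χ t l) z) :
    ‖(s : ℂ) - z‖ ≤ ∑' l, c l * ‖1 - χ t l‖ := by
  have h1 := hasSum_sub hc h
  rw [← h1.tsum_eq]
  have h2 : (fun l => ‖(c l : ℂ) * (1 - χ t l)‖) = fun l => c l * ‖1 - χ t l‖ := by
    funext l
    rw [norm_mul, Complex.norm_real, Real.norm_eq_abs, abs_of_nonneg (hc0 l)]
  have h3 := summable_norm_one_sub hχ hc0 hc.summable t
  rw [← h2] at h3
  refine (norm_tsum_le_tsum_norm h3).trans (le_of_eq ?_)
  rw [h2]

theorem Fac.bound (hχ : IsChar χ) {X : T → ℂ} (hX : Fac χ X) :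
    Pos χ X 1 ∧ ∃ d : Λ → ℝ, (∀ l, 0 ≤ d l) ∧ Summable d ∧
      (∀ t, ‖X t‖ * (1 + ∑' l, d l * (1 - (χ t l).re)) ≤ 1) ∧
      ∀ t, ‖1 - X t‖ ≤ ∑' l, d l * ‖1 - χ t l‖ := by
  induction hX with
  | one =>
    refine ⟨(Pos.single (χ := χ) 0).congr (fun t => hχ.zero t) rfl, fun _ => 0, fun _ => le_rfl,
      summable_zero, fun t => ?_, fun t => ?_⟩
    · simp
    · simp
  | @mul X κ s hX hκ ih =>
    obtain ⟨hXp, d, hd, hds, h1, h2⟩ := ih
    have hs := hκ.nonneg
    constructor
    · have h3 := hXp.mul hχ (hκ.inv hχ (d := 1 + s) (by linarith))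
      refine h3.congr (fun t => ?_) ?_
      · push_cast; ring
      · norm_num
    obtain ⟨c, hc, hcs, hcf⟩ := hκ
    refine ⟨fun l => d l + c l, fun l => add_nonneg (hd l) (hc l), hds.add hcs.summable,
      fun t => ?_, fun t => ?_⟩
    · have h3 := hasSum_sub_re hcs (hcf t)
      have h4 : 0 ≤ s - (κ t).re := h3.nonneg fun l => mul_nonneg (hc l) (hχ.one_sub_re_nonneg t l)
      have h5 : 1 + (s - (κ t).re) ≤ ‖1 + (s : ℂ) - κ t‖ := by
        have := Complex.re_le_norm (1 + (s : ℂ) - κ t)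
        simp only [Complex.sub_re, Complex.add_re, Complex.one_re, Complex.ofReal_re] at this
        linarith
      have h6 : ∑' l, (d l + c l) * (1 - (χ t l).re) =
          ∑' l, d l * (1 - (χ t l).re) + (s - (κ t).re) := by
        rw [← h3.tsum_eq, ← (summable_re hχ hd hds t).tsum_add h3.summable]
        congr 1
        funext l
        ring
      rw [h6, norm_mul, norm_inv]
      have h7 : 0 ≤ ∑' l, d l * (1 - (χ t l).re) :=
        tsum_nonneg fun l => mul_nonneg (hd l) (hχ.one_sub_re_nonneg t l)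
      have h8 : 0 < ‖1 + (s : ℂ) - κ t‖ := by linarith
      rw [mul_right_comm, ← div_eq_mul_inv, div_le_one h8]
      have h9 := mul_le_mul_of_nonneg_right (h1 t) (by linarith : (0 : ℝ) ≤ 1 + (s - (κ t).re))
      rw [one_mul] at h9
      refine le_trans ?_ (h9.trans h5)
      rw [mul_assoc]
      refine mul_le_mul_of_nonneg_left ?_ (norm_nonneg _)
      nlinarith
    · have h3 := norm_sub_le_tsum hχ hc hcs (hcf t)
      have h3' := hasSum_sub_re hcs (hcf t)
      have h4 : 0 ≤ s - (κ t).re := h3'.nonneg fun l => mul_nonneg (hc l) (hχ.one_sub_re_nonneg t l)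
      have h5 : 1 + (s - (κ t).re) ≤ ‖1 + (s : ℂ) - κ t‖ := by
        have := Complex.re_le_norm (1 + (s : ℂ) - κ t)
        simp only [Complex.sub_re, Complex.add_re, Complex.one_re, Complex.ofReal_re] at this
        linarith
      have h8 : 0 < ‖1 + (s : ℂ) - κ t‖ := by linarith
      have h80 : 1 + (s : ℂ) - κ t ≠ 0 := norm_pos_iff.1 h8
      have h6 : ∑' l, (d l + c l) * ‖1 - χ t l‖ =
          ∑' l, d l * ‖1 - χ t l‖ + ∑' l, c l * ‖1 - χ t l‖ := by
        rw [← (summable_norm_one_sub hχ hd hds t).tsum_add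
          (summable_norm_one_sub hχ hc hcs.summable t)]
        congr 1
        funext l
        ring
      rw [h6]
      have h9 : 1 - X t * (1 + (s : ℂ) - κ t)⁻¹ =
          (1 - X t) * (1 + (s : ℂ) - κ t)⁻¹ + ((s : ℂ) - κ t) * (1 + (s : ℂ) - κ t)⁻¹ := by
        field_simp
        ring
      rw [h9]
      refine (norm_add_le _ _).trans (add_le_add ?_ ?_)
      · rw [norm_mul, norm_inv]
        refine le_trans ?_ (h2 t)
        exact mul_le_of_le_one_right (norm_nonneg _) (inv_le_one_of_one_le₀ (by linarith))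
      · rw [norm_mul, norm_inv]
        refine le_trans ?_ h3
        exact mul_le_of_le_one_right (norm_nonneg _) (inv_le_one_of_one_le₀ (by linarith))

/-- a series of weight one has a definite nontrivial part -/
theorem core [MeasurableSpace T] {μ : Measure T} [IsProbabilityMeasure μ] (hM : IsCharM χ μ)
    {X : T → ℂ} (hX : Fac χ X) {lam : Λ} (hlam : lam ≠ 0) :
    ∃ (S : Finset Λ) (c : Λ → ℝ), 0 ∉ S ∧ (∀ l, 0 ≤ c l) ∧ 1 / 10 ≤ ∑ l ∈ S, c l ∧
      ∑ l ∈ S, c l ≤ 1 ∧ ∀ t, ∑ l ∈ S, c l * (1 - (χ t l).re) ≤ 1 - (χ t lam * X t).re := by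
  classical
  have hχ := hM.toIsChar
  obtain ⟨hXp, d, hd, hds, hd1, hd2⟩ := hX.bound hχ
  have hf : Pos χ (fun t => χ t lam * X t) 1 :=
    ((Pos.single (χ := χ) lam).mul hχ hXp).congr (fun t => rfl) (one_mul 1)
  obtain ⟨c, hc, hcs, hcf⟩ := hf
  have hc' : HasSum (fun l => if l = 0 then 0 else c l) (1 - c 0) := by
    have h1 := hcs.sub (hasSum_ite_eq (0 : Λ) (c 0))
    have h2 : (fun l => if l = 0 then 0 else c l) = fun l => c l - if l = 0 then c 0 else 0 := by
      funext l
      split_ifs with h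
      · rw [h, sub_self]
      · rw [sub_zero]
    rw [h2]
    exact h1
  rcases le_or_gt (c 0) (4 / 5) with h0 | h0
  · have h1 : ∀ᶠ s : Finset Λ in Filter.atTop, 1 / 10 < ∑ l ∈ s, if l = 0 then 0 else c l :=
      hc'.eventually (lt_mem_nhds (by linarith))
    obtain ⟨s, hs⟩ := h1.exists
    have h2 : ∑ l ∈ s, (if l = 0 then 0 else c l) = ∑ l ∈ s.filter (fun l => l ≠ 0), c l := by
      rw [Finset.sum_filter]
      refine Finset.sum_congr rfl fun l _ => ?_
      by_cases h : l = 0 <;> simp [h]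
    refine ⟨s.filter (fun l => l ≠ 0), c, by simp, hc, ?_, ?_, fun t => ?_⟩
    · rw [← h2]; exact hs.le
    · exact sum_le_hasSum _ (fun l _ => hc l) hcs
    · exact sum_le_hasSum _ (fun l _ => mul_nonneg (hc l) (hχ.one_sub_re_nonneg t l))
        (hasSum_sub_re hcs (hcf t))
  · exfalso
    -- `f` is close to one everywhere
    have h1 : ∀ t, ‖1 - χ t lam * X t‖ ≤ 2 / 5 := by
      intro t
      have h2 := norm_sub_le_tsum hχ hc hcs (hcf t)
      rw [Complex.ofReal_one] at h2
      refine h2.trans ?_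
      have h3 := hc'.mul_right (2 : ℝ)
      have h4 : ∑' l, c l * ‖1 - χ t l‖ ≤ (1 - c 0) * 2 := by
        rw [← h3.tsum_eq]
        refine (summable_norm_one_sub hχ hc hcs.summable t).tsum_le_tsum (fun l => ?_) h3.summable
        by_cases h : l = 0
        · simp [h, hχ.zero]
        · rw [if_neg h]
          exact mul_le_mul_of_nonneg_left (hχ.norm_one_sub_le t l) (hc l)
      linarith
    have h2 : ∀ t, 3 / 5 ≤ ‖X t‖ := by
      intro t
      have h3 : ‖χ t lam * X t‖ = ‖X t‖ := by rw [norm_mul, hχ.norm, one_mul]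
      have h4 := norm_sub_norm_le (1 : ℂ) (1 - χ t lam * X t)
      rw [sub_sub_cancel, norm_one, h3] at h4
      linarith [h1 t]
    have h3 : ∀ t, ∑' l, d l * (1 - (χ t l).re) ≤ 2 / 3 := by
      intro t
      have h4 : 0 ≤ ∑' l, d l * (1 - (χ t l).re) :=
        tsum_nonneg fun l => mul_nonneg (hd l) (hχ.one_sub_re_nonneg t l)
      have h5 := mul_le_mul_of_nonneg_right (h2 t)
        (by linarith : 0 ≤ 1 + ∑' l, d l * (1 - (χ t l).re))
      linarith [hd1 t]
    -- the average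
    have h4 : ∀ s : Finset Λ, 0 ∉ s → ∑ l ∈ s, d l ≤ 2 / 3 := by
      intro s hs
      have h5 : ∀ t, ∑ l ∈ s, d l * (1 - (χ t l).re) ≤ 2 / 3 := fun t =>
        ((summable_re hχ hd hds t).sum_le_tsum s
          fun l _ => mul_nonneg (hd l) (hχ.one_sub_re_nonneg t l)).trans (h3 t)
      have hint : ∀ l, Integrable (fun t => d l * (1 - (χ t l).re)) μ := fun l =>
        ((integrable_const _).sub (hM.int l)).const_mul _
      have h6 : ∫ t, ∑ l ∈ s, d l * (1 - (χ t l).re) ∂μ ≤ ∫ _, (2 / 3 : ℝ) ∂μ :=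
        integral_mono (integrable_finsetSum _ fun l _ => hint l) (integrable_const _) h5
      rw [integral_finsetSum _ fun l _ => hint l, integral_const, probReal_univ, one_smul] at h6
      refine le_trans (Finset.sum_le_sum fun l hl => ?_) h6
      have hl0 : l ≠ 0 := by rintro rfl; exact hs hl
      rw [integral_const_mul, integral_sub (integrable_const _) (hM.int l), integral_const,
        probReal_univ, one_smul]
      have := hM.avg l hl0
      nlinarith [hd l]
    obtain ⟨t, ht⟩ := hM.minus lam hlam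
    have h5 : ∑' l, d l * ‖1 - χ t l‖ ≤ 4 / 3 := by
      refine (summable_norm_one_sub hχ hd hds t).tsum_le_of_sum_le fun s => ?_
      have h6 : ∑ l ∈ s, d l * ‖1 - χ t l‖ ≤ ∑ l ∈ s.filter (fun l => l ≠ 0), d l * 2 := by
        rw [Finset.sum_filter]
        refine Finset.sum_le_sum fun l _ => ?_
        by_cases h : l = 0
        · simp [h, hχ.zero]
        · rw [if_pos h]
          exact mul_le_mul_of_nonneg_left (hχ.norm_one_sub_le t l) (hd l)
      rw [← Finset.sum_mul] at h6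
      have h7 := h4 (s.filter (fun l => l ≠ 0)) (by simp)
      linarith
    have h6 := (hd2 t).trans h5
    have h7 := h1 t
    rw [ht] at h7
    have h8 : (2 : ℝ) ≤ ‖(1 : ℂ) - X t‖ + ‖(1 : ℂ) - -1 * X t‖ := by
      have := norm_add_le ((1 : ℂ) - X t) ((1 : ℂ) - -1 * X t)
      have e : ((1 : ℂ) - X t) + ((1 : ℂ) - -1 * X t) = 2 := by ring
      rw [e] at this
      simpa using this
    linarith

end

end H25.DM
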