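import Mathlib

/-!
# Closed walks with labels
-/

set_option autoImplicit false

namespace H25.DM

variable {V Λ : Type} [AddCommGroup Λ]

/-- walks with the sum of the labels and the length -/
inductive Wk (E : V → V → Λ → Prop) : V → V → Λ → ℕ → Prop
  | nil (v : V) : Wk E v v 0 0
  | cons {u v w : V} {l s : Λ} {n : ℕ} : E u v l → Wk E v w s n → Wk E u w (l + s) (n + 1)

variable {E : V → V → Λ → Prop}

theorem Wk.append {u v w : V} {l s : Λ} {n k : ℕ} (h1 : Wk E u v l n) (h2 : Wk E v w s k) :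
    Wk E u w (l + s) (n + k) := by
  induction h1 with
  | nil v => simpa using h2
  | @cons u x v l' s' n' he _ ih =>
    have := Wk.cons he (ih h2)
    rw [add_assoc, show n' + 1 + k = (n' + k) + 1 by ring]
    exact this

theorem Wk.edge {u v : V} {l : Λ} (h : E u v l) : Wk E u v l 1 := by
  have := Wk.cons h (Wk.nil v)
  simpa using this

theorem Wk.seq {u v : V} {s : Λ} {n : ℕ} (h : Wk E u v s n) :
    ∃ (x : ℕ → V) (lab : ℕ → Λ), x 0 = u ∧ x n = v ∧ (∀ i < n, E (x i) (x (i + 1)) (lab i)) ∧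
      ∑ i ∈ Finset.range n, lab i = s := by
  induction h with
  | nil v => exact ⟨fun _ => v, fun _ => 0, rfl, rfl, fun i hi => absurd hi (Nat.not_lt_zero i), by simp⟩
  | @cons u v w l s n he _ ih =>
    obtain ⟨x, lab, h1, h2, h3, h4⟩ := ih
    refine ⟨fun i => match i with | 0 => u | i + 1 => x i,
      fun i => match i with | 0 => l | i + 1 => lab i, rfl, h2, fun i hi => ?_, ?_⟩
    · cases i with
      | zero =>
        show E u (x 0) l
        rw [h1]; exact he
      | succ i => exact h3 i (by omega)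
    · rw [Finset.sum_range_succ']
      simp only
      rw [h4, add_comm]

/-- a nontrivial closed sequence -/
def Cl (E : V → V → Λ → Prop) (n : ℕ) : Prop :=
  ∃ (x : ℕ → V) (lab : ℕ → Λ), x n = x 0 ∧ (∀ i < n, E (x i) (x (i + 1)) (lab i)) ∧
      ∑ i ∈ Finset.range n, lab i ≠ 0

theorem Cl.split {i p r : ℕ} {x : ℕ → V} {lab : ℕ → Λ} (hr : 0 < r)
    (h1 : x (i + p + r) = x 0) (h2 : ∀ k < i + p + r, E (x k) (x (k + 1)) (lab k))
    (h3 : ∑ k ∈ Finset.range (i + p + r), lab k ≠ 0) (hx : x i = x (i + p)) :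
    Cl E p ∨ Cl E (i + r) := by
  classical
  by_cases hA : ∑ k ∈ Finset.range p, lab (i + k) = 0
  · right
    refine ⟨fun k => if k ≤ i then x k else x (k + p), fun k => if k < i then lab k else lab (k + p),
      ?_, fun k hk => ?_, ?_⟩
    · have h4 : ¬ (i + r ≤ i) := by omega
      simp only [if_neg h4, if_pos (Nat.zero_le i)]
      rw [show i + r + p = i + p + r by ring, h1]
    · rcases lt_trichotomy k i with hki | hki | hki
      · simp only [if_pos hki.le, if_pos (Nat.succ_le_of_lt hki), if_pos hki]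
        exact h2 k (by omega)
      · subst hki
        have h4 : ¬ (k + 1 ≤ k) := by omega
        simp only [if_pos le_rfl, if_neg h4, if_neg (lt_irrefl k)]
        rw [hx, show k + 1 + p = k + p + 1 by ring]
        exact h2 (k + p) (by omega)
      · have h4 : ¬ (k ≤ i) := by omega
        have h5 : ¬ (k + 1 ≤ i) := by omega
        have h6 : ¬ (k < i) := by omega
        simp only [if_neg h4, if_neg h5, if_neg h6]
        rw [show k + 1 + p = k + p + 1 by ring]
        exact h2 (k + p) (by omega)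
    · rw [Finset.sum_range_add]
      rw [Finset.sum_range_add, Finset.sum_range_add, hA, add_zero] at h3
      convert h3 using 2
      · refine Finset.sum_congr rfl fun k hk => ?_
        rw [if_pos (Finset.mem_range.1 hk)]
      · refine Finset.sum_congr rfl fun k _ => ?_
        have h4 : ¬ (i + k < i) := by omega
        rw [if_neg h4]
        congr 1
        ring
  · left
    refine ⟨fun k => x (i + k), fun k => lab (i + k), ?_, fun k hk => ?_, hA⟩
    · simp only [add_zero]
      exact hx.symm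
    · exact h2 (i + k) (by omega)

/-- a nontrivial closed walk gives a nontrivial simple cycle -/
theorem simple_cycle (h : ∃ (v : V) (l : Λ) (n : ℕ), l ≠ 0 ∧ Wk E v v l n) :
    ∃ (m : ℕ) (e : Fin (m + 1) → V) (lab : Fin (m + 1) → Λ), Function.Injective e ∧
      (∀ j : Fin m, E (e j.castSucc) (e j.succ) (lab j.castSucc)) ∧
      E (e (Fin.last m)) (e 0) (lab (Fin.last m)) ∧ ∑ j, lab j ≠ 0 := by
  classical
  have hex : ∃ n, Cl E n := by
    obtain ⟨v, l, n, hl, hw⟩ := h
    obtain ⟨x, lab, h1, h2, h3, h4⟩ := hw.seq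
    exact ⟨n, x, lab, by rw [h1, h2], h3, by rw [h4]; exact hl⟩
  obtain ⟨x, lab, h1, h2, h3⟩ := Nat.find_spec hex
  have hmin : ∀ k, k < Nat.find hex → ¬ Cl E k := fun k hk => Nat.find_min hex hk
  set n := Nat.find hex with hn
  have hn0 : n ≠ 0 := by
    intro h0
    rw [h0] at h3
    simp at h3
  obtain ⟨m, hm⟩ := Nat.exists_eq_succ_of_ne_zero hn0
  rw [Nat.succ_eq_add_one] at hm
  have hinj : ∀ i j, i < j → j < n → x i ≠ x j := by
    intro i j hij hj hx
    obtain ⟨p, rfl⟩ := Nat.exists_eq_add_of_lt hij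
    obtain ⟨r, hr⟩ := Nat.exists_eq_add_of_lt hj
    have e1 : n = i + (p + 1) + (r + 1) := by omega
    rw [e1] at h1 h2 h3
    rcases Cl.split (Nat.succ_pos r) h1 h2 h3 (by rw [hx]; rfl) with h4 | h4
    · exact hmin _ (by omega) h4
    · exact hmin _ (by omega) h4
  refine ⟨m, fun j => x j.val, fun j => lab j.val, ?_, fun j => ?_, ?_, ?_⟩
  · intro a b hab
    by_contra hne
    have ha := a.isLt
    have hb := b.isLt
    rcases lt_or_gt_of_ne (fun h => hne (Fin.ext h) : a.val ≠ b.val) with h4 | h4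
    · exact hinj _ _ h4 (by omega) hab
    · exact hinj _ _ h4 (by omega) hab.symm
  · have := h2 j.val (by have := j.isLt; omega)
    simpa using this
  · have := h2 m (by omega)
    rw [← hm, h1] at this
    simpa using this
  · rw [hm] at h3
    rw [Finset.sum_range] at h3
    exact h3

/-- without nontrivial closed walks there is a potential -/
theorem potential [Nonempty V] (hconn : ∀ u v : V, ∃ (l : Λ) (n : ℕ), Wk E u v l n)
    (h0 : ∀ (v : V) (l : Λ) (n : ℕ), Wk E v v l n → l = 0) :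
    ∃ π : V → Λ, ∀ u v l, E u v l → l = π v - π u := by
  obtain ⟨r⟩ := ‹Nonempty V›
  choose π hπ using fun v => hconn r v
  refine ⟨π, fun u v l he => ?_⟩
  obtain ⟨ρ, k, hρ⟩ := hconn v r
  obtain ⟨n1, h1⟩ := hπ u
  obtain ⟨n2, h2⟩ := hπ v
  have h3 := h0 _ _ _ ((h1.append (Wk.edge he)).append hρ)
  have h4 := h0 _ _ _ (h2.append hρ)
  have h5 : ρ = -π v := (neg_eq_of_add_eq_zero_right h4).symm
  rw [h5] at h3
  have h6 : π u + l = π v := by
    have := h3
    rw [← sub_eq_add_neg, sub_eq_zero] at this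
    exact this
  rw [← h6]
  abel

/-- no proper nonempty set is closed under the edges -/
def Irr (R : V → V → Prop) : Prop :=
  ∀ S : Set V, S.Nonempty → (∀ v ∈ S, ∀ w, R v w → w ∈ S) → S = Set.univ

theorem Irr.conn (h : Irr fun u v => ∃ l, E u v l) (u v : V) : ∃ (l : Λ) (n : ℕ), Wk E u v l n := by
  have h1 := h {w | ∃ (l : Λ) (n : ℕ), Wk E u w l n} ⟨u, 0, 0, Wk.nil u⟩ (by
    rintro x ⟨l, n, hx⟩ w ⟨s, hs⟩
    exact ⟨_, _, hx.append (Wk.edge hs)⟩)
  have h2 : v ∈ (Set.univ : Set V) := trivial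
  rw [← h1] at h2
  exact h2

/-- the distance to a set -/
theorem Irr.rank {R : V → V → Prop} (h : Irr R) {Z : Set V} (hZ : Z.Nonempty) :
    ∃ ρ : V → ℕ, ∀ v, v ∉ Z → ∃ w, R v w ∧ ρ w < ρ v := by
  classical
  obtain ⟨D, hD0, hDs⟩ : ∃ D : ℕ → Set V, D 0 = Z ∧
      ∀ n, D (n + 1) = {v | v ∈ D n ∨ ∃ w ∈ D n, R v w} :=
    ⟨fun n => Nat.rec Z (fun _ S => {v | v ∈ S ∨ ∃ w ∈ S, R v w}) n, rfl, fun n => rfl⟩
  have hall : ∀ v, ∃ n, v ∈ D n := by
    by_contra hcon
    push Not at hcon
    obtain ⟨v0, hv0⟩ := hcon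
    have h1 := h {v | ∀ n, v ∉ D n} ⟨v0, hv0⟩ (by
      intro v hv w hvw n hw
      exact hv (n + 1) (by rw [hDs]; exact Or.inr ⟨w, hw, hvw⟩))
    obtain ⟨z, hz⟩ := hZ
    have h2 : z ∈ (Set.univ : Set V) := trivial
    rw [← h1] at h2
    exact h2 0 (by rw [hD0]; exact hz)
  refine ⟨fun v => Nat.find (hall v), fun v hv => ?_⟩
  dsimp only
  have h1 : v ∈ D (Nat.find (hall v)) := Nat.find_spec (hall v)
  have h2 : Nat.find (hall v) ≠ 0 := by
    intro h0
    rw [h0, hD0] at h1
    exact hv h1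
  obtain ⟨n, hn⟩ := Nat.exists_eq_succ_of_ne_zero h2
  rw [Nat.succ_eq_add_one] at hn
  rw [hn, hDs] at h1
  rcases h1 with h1 | ⟨w, hw, hR⟩
  · exact absurd h1 (Nat.find_min (hall v) (by omega))
  · refine ⟨w, hR, ?_⟩
    rw [hn]
    exact Nat.lt_succ_of_le (Nat.find_min' (hall w) hw)

end H25.DM
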