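import Pool.Agent.H25.DM.Pos

/-!
# Elimination of vertices from a weakly dominant matrix
-/

set_option autoImplicit false

namespace H25.DM

open Matrix

noncomputable section

set_option linter.unusedSectionVars false

theorem det_last {K : Type} [Field K] {n : ℕ} (M : Matrix (Fin (n + 1)) (Fin (n + 1)) K)
    (h : M (Fin.last n) (Fin.last n) ≠ 0) :
    M.det = M (Fin.last n) (Fin.last n) * (Matrix.of fun i j : Fin n =>
      M i.castSucc j.castSucc - M i.castSucc (Fin.last n) * M (Fin.last n) j.castSucc /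
        M (Fin.last n) (Fin.last n)).det := by
  classical
  set e : Fin n ⊕ Fin 1 ≃ Fin (n + 1) := finSumFinEquiv with he
  have h1 : M.submatrix e e = Matrix.fromBlocks (Matrix.of fun i j : Fin n => M i.castSucc j.castSucc)
      (Matrix.of fun (i : Fin n) (_ : Fin 1) => M i.castSucc (Fin.last n))
      (Matrix.of fun (_ : Fin 1) (j : Fin n) => M (Fin.last n) j.castSucc)
      (Matrix.of fun (_ : Fin 1) (_ : Fin 1) => M (Fin.last n) (Fin.last n)) := by
    ext i j
    rcases i with i | i <;> rcases j with j | j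
    · rfl
    · have hj : j = 0 := Subsingleton.elim _ _
      subst hj; rfl
    · have hi : i = 0 := Subsingleton.elim _ _
      subst hi; rfl
    · have hj : j = 0 := Subsingleton.elim _ _
      have hi : i = 0 := Subsingleton.elim _ _
      subst hj; subst hi; rfl
  have h2 : M.det = (M.submatrix e e).det := (Matrix.det_submatrix_equiv_self e M).symm
  have hD : IsUnit (Matrix.of fun (_ : Fin 1) (_ : Fin 1) => M (Fin.last n) (Fin.last n)).det := by
    rw [Matrix.det_fin_one]
    exact isUnit_iff_ne_zero.2 h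
  have : Invertible (Matrix.of fun (_ : Fin 1) (_ : Fin 1) => M (Fin.last n) (Fin.last n)) :=
    Matrix.invertibleOfIsUnitDet _ hD
  rw [h2, h1, Matrix.det_fromBlocks₂₂, Matrix.det_fin_one]
  congr 1
  congr 1
  ext i j
  have h3 : (⅟(Matrix.of fun (_ : Fin 1) (_ : Fin 1) => M (Fin.last n) (Fin.last n))) =
      Matrix.of fun (_ : Fin 1) (_ : Fin 1) => (M (Fin.last n) (Fin.last n))⁻¹ := by
    apply invOf_eq_right_inv
    ext i j
    have hj : j = 0 := Subsingleton.elim _ _
    have hi : i = 0 := Subsingleton.elim _ _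
    subst hj; subst hi
    rw [Matrix.mul_apply]
    simp [h]
  rw [h3]
  simp only [Matrix.sub_apply, Matrix.of_apply, Matrix.mul_apply, Finset.univ_unique,
    Finset.sum_singleton]
  ring

variable {T Λ : Type} [AddCommGroup Λ] {χ : T → Λ → ℂ}

/-- the matrix `diag c - b` at the point `t` -/
def mat {n : ℕ} (c : Fin n → ℝ) (b : Fin n → Fin n → T → ℂ) (t : T) : Matrix (Fin n) (Fin n) ℂ :=
  Matrix.of fun v w => (if v = w then (c v : ℂ) else 0) - b v w t

/-- the real matrix `diag c - a` -/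
def mat1 {n : ℕ} (c : Fin n → ℝ) (a : Fin n → Fin n → ℝ) : Matrix (Fin n) (Fin n) ℝ :=
  Matrix.of fun v w => (if v = w then c v else 0) - a v w

/-- weakly dominant data -/
structure Good (χ : T → Λ → ℂ) {n : ℕ} (p c : Fin n → ℝ) (b : Fin n → Fin n → T → ℂ)
    (a : Fin n → Fin n → ℝ) : Prop where
  pos : ∀ v, 0 < p v
  ser : ∀ v w, Pos χ (b v w) (a v w)
  dom : ∀ v, ∑ w, a v w * p w ≤ c v * p v

/-- the entries after the elimination of the last vertex -/
def bel {n : ℕ} (c : Fin (n + 1) → ℝ) (b : Fin (n + 1) → Fin (n + 1) → T → ℂ) :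
    Fin n → Fin n → T → ℂ := fun v w t =>
  b v.castSucc w.castSucc t + b v.castSucc (Fin.last n) t * b (Fin.last n) w.castSucc t *
    ((c (Fin.last n) : ℂ) - b (Fin.last n) (Fin.last n) t)⁻¹

/-- the values after the elimination of the last vertex -/
def ael {n : ℕ} (c : Fin (n + 1) → ℝ) (a : Fin (n + 1) → Fin (n + 1) → ℝ) :
    Fin n → Fin n → ℝ := fun v w =>
  a v.castSucc w.castSucc + a v.castSucc (Fin.last n) * a (Fin.last n) w.castSucc *
    (c (Fin.last n) - a (Fin.last n) (Fin.last n))⁻¹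

section step

variable {n : ℕ} {p c : Fin (n + 1) → ℝ} {b : Fin (n + 1) → Fin (n + 1) → T → ℂ}
  {a : Fin (n + 1) → Fin (n + 1) → ℝ}

theorem Good.anonneg {n : ℕ} {p c : Fin n → ℝ} {b : Fin n → Fin n → T → ℂ}
    {a : Fin n → Fin n → ℝ} (hG : Good χ p c b a) (v w : Fin n) : 0 ≤ a v w :=
  (hG.ser v w).nonneg

theorem ser_bel (hχ : IsChar χ) (hG : Good χ p c b a)
    (hn : a (Fin.last n) (Fin.last n) < c (Fin.last n)) (v w : Fin n) :
    Pos χ (fun t => b v.castSucc (Fin.last n) t * b (Fin.last n) w.castSucc t *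
      ((c (Fin.last n) : ℂ) - b (Fin.last n) (Fin.last n) t)⁻¹)
      (a v.castSucc (Fin.last n) * a (Fin.last n) w.castSucc *
    (c (Fin.last n) - a (Fin.last n) (Fin.last n))⁻¹) :=
  ((hG.ser _ _).mul hχ (hG.ser _ _)).mul hχ ((hG.ser _ _).inv hχ hn)

/-- the key inequality -/
theorem sum_ael_le (hG : Good χ p c b a)
    (hn : a (Fin.last n) (Fin.last n) < c (Fin.last n)) (v : Fin n) :
    ∑ w, ael c a v w * p w.castSucc ≤ ∑ w, a v.castSucc w * p w := by
  have hD : 0 < c (Fin.last n) - a (Fin.last n) (Fin.last n) := sub_pos.2 hn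
  have h1 : ∑ w, ael c a v w * p w.castSucc = ∑ w : Fin n, a v.castSucc w.castSucc * p w.castSucc +
      a v.castSucc (Fin.last n) * (c (Fin.last n) - a (Fin.last n) (Fin.last n))⁻¹ *
        ∑ w : Fin n, a (Fin.last n) w.castSucc * p w.castSucc := by
    rw [Finset.mul_sum, ← Finset.sum_add_distrib]
    refine Finset.sum_congr rfl fun w _ => ?_
    unfold ael
    ring
  have h2 := hG.dom (Fin.last n)
  rw [Fin.sum_univ_castSucc] at h2
  have h3 : ∑ w : Fin n, a (Fin.last n) w.castSucc * p w.castSucc ≤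
      (c (Fin.last n) - a (Fin.last n) (Fin.last n)) * p (Fin.last n) := by linarith
  rw [h1, Fin.sum_univ_castSucc]
  have h4 : 0 ≤ a v.castSucc (Fin.last n) * (c (Fin.last n) - a (Fin.last n) (Fin.last n))⁻¹ :=
    mul_nonneg (hG.anonneg _ _) (inv_pos.2 hD).le
  have h5 := mul_le_mul_of_nonneg_left h3 h4
  have h6 : a v.castSucc (Fin.last n) * (c (Fin.last n) - a (Fin.last n) (Fin.last n))⁻¹ *
      ((c (Fin.last n) - a (Fin.last n) (Fin.last n)) * p (Fin.last n)) =
      a v.castSucc (Fin.last n) * p (Fin.last n) := by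
    field_simp
  linarith

/-- the strict inequality -/
theorem sum_ael_lt (hG : Good χ p c b a)
    (hn : ∑ w, a (Fin.last n) w * p w < c (Fin.last n) * p (Fin.last n)) (v : Fin n)
    (hv : 0 < a v.castSucc (Fin.last n)) :
    ∑ w, ael c a v w * p w.castSucc < ∑ w, a v.castSucc w * p w := by
  have h2 := hn
  rw [Fin.sum_univ_castSucc] at h2
  have h3 : ∑ w : Fin n, a (Fin.last n) w.castSucc * p w.castSucc <
      (c (Fin.last n) - a (Fin.last n) (Fin.last n)) * p (Fin.last n) := by linarith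
  have h30 : 0 ≤ ∑ w : Fin n, a (Fin.last n) w.castSucc * p w.castSucc :=
    Finset.sum_nonneg fun w _ => mul_nonneg (hG.anonneg _ _) (hG.pos _).le
  have hD : 0 < c (Fin.last n) - a (Fin.last n) (Fin.last n) := by
    have := hG.pos (Fin.last n)
    by_contra hcon
    push Not at hcon
    have : (c (Fin.last n) - a (Fin.last n) (Fin.last n)) * p (Fin.last n) ≤ 0 :=
      mul_nonpos_of_nonpos_of_nonneg hcon this.le
    linarith
  have h1 : ∑ w, ael c a v w * p w.castSucc = ∑ w : Fin n, a v.castSucc w.castSucc * p w.castSucc +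
      a v.castSucc (Fin.last n) * (c (Fin.last n) - a (Fin.last n) (Fin.last n))⁻¹ *
        ∑ w : Fin n, a (Fin.last n) w.castSucc * p w.castSucc := by
    rw [Finset.mul_sum, ← Finset.sum_add_distrib]
    refine Finset.sum_congr rfl fun w _ => ?_
    unfold ael
    ring
  rw [h1, Fin.sum_univ_castSucc]
  have h4 : 0 < a v.castSucc (Fin.last n) * (c (Fin.last n) - a (Fin.last n) (Fin.last n))⁻¹ :=
    mul_pos hv (inv_pos.2 hD)
  have h5 := mul_lt_mul_of_pos_left h3 h4
  have h6 : a v.castSucc (Fin.last n) * (c (Fin.last n) - a (Fin.last n) (Fin.last n))⁻¹ *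
      ((c (Fin.last n) - a (Fin.last n) (Fin.last n)) * p (Fin.last n)) =
      a v.castSucc (Fin.last n) * p (Fin.last n) := by
    field_simp
  linarith

theorem Good.elim (hχ : IsChar χ) (hG : Good χ p c b a)
    (hn : a (Fin.last n) (Fin.last n) < c (Fin.last n)) :
    Good χ (fun v : Fin n => p v.castSucc) (fun v => c v.castSucc) (bel c b) (ael c a) where
  pos := fun _ => hG.pos _
  ser := fun v w => (hG.ser _ _).add (ser_bel hχ hG hn v w)
  dom := fun v => (sum_ael_le hG hn v).trans (hG.dom _)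

theorem norm_sub_ge (hχ : IsChar χ) {f : T → ℂ} {d s : ℝ} (h : Pos χ f s) (t : T) :
    d - s ≤ ‖(d : ℂ) - f t‖ := by
  have h1 := h.re_le hχ t
  have h2 := Complex.re_le_norm ((d : ℂ) - f t)
  simp only [Complex.sub_re, Complex.ofReal_re] at h2
  linarith

theorem det_elim (hχ : IsChar χ) (hG : Good χ p c b a)
    (hn : a (Fin.last n) (Fin.last n) < c (Fin.last n)) (t : T) :
    (c (Fin.last n) - a (Fin.last n) (Fin.last n)) *
      ‖(mat (fun v : Fin n => c v.castSucc) (bel c b) t).det‖ ≤ ‖(mat c b t).det‖ := by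
  have h0 := norm_sub_ge hχ (d := c (Fin.last n)) (hG.ser (Fin.last n) (Fin.last n)) t
  have hD : 0 < c (Fin.last n) - a (Fin.last n) (Fin.last n) := sub_pos.2 hn
  have h1 : mat c b t (Fin.last n) (Fin.last n) =
      (c (Fin.last n) : ℂ) - b (Fin.last n) (Fin.last n) t := by
    simp [mat]
  have h2 : mat c b t (Fin.last n) (Fin.last n) ≠ 0 := by
    rw [h1]
    intro h
    rw [h, norm_zero] at h0
    linarith
  rw [det_last _ h2, norm_mul, h1]
  have h3 : (Matrix.of fun i j : Fin n =>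
      mat c b t i.castSucc j.castSucc - mat c b t i.castSucc (Fin.last n) *
        mat c b t (Fin.last n) j.castSucc /
        ((c (Fin.last n) : ℂ) - b (Fin.last n) (Fin.last n) t)) =
      mat (fun v : Fin n => c v.castSucc) (bel c b) t := by
    ext i j
    have hi : i.castSucc ≠ Fin.last n := (Fin.castSucc_lt_last i).ne
    have hj : Fin.last n ≠ j.castSucc := (Fin.castSucc_lt_last j).ne'
    simp only [mat, bel, Matrix.of_apply, if_neg hi, if_neg hj, Fin.castSucc_inj]
    ring
  rw [h3]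
  exact mul_le_mul_of_nonneg_right h0 (norm_nonneg _)

theorem mat1_last {m k : ℕ} {p c : Fin (m + k + 1) → ℝ}
    {b : Fin (m + k + 1) → Fin (m + k + 1) → T → ℂ} {a : Fin (m + k + 1) → Fin (m + k + 1) → ℝ}
    (_ : Good χ p c b a) (hn : a (Fin.last (m + k)) (Fin.last (m + k)) < c (Fin.last (m + k)))
    (g : Fin (k + 1) → Fin (m + k + 1)) (hg : ∀ i : Fin k, g i.castSucc = (Fin.natAdd m i).castSucc)
    (hgl : g (Fin.last k) = Fin.last (m + k)) :
    ((mat1 c a).submatrix g g).det =
    (c (Fin.last (m + k)) - a (Fin.last (m + k)) (Fin.last (m + k))) *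
    ((mat1 (fun v : Fin (m + k) => c v.castSucc) (ael c a)).submatrix
      (Fin.natAdd m) (Fin.natAdd m)).det := by
  have hD : 0 < c (Fin.last (m + k)) - a (Fin.last (m + k)) (Fin.last (m + k)) := sub_pos.2 hn
  have h1 : (mat1 c a).submatrix g g (Fin.last k) (Fin.last k) =
      c (Fin.last (m + k)) - a (Fin.last (m + k)) (Fin.last (m + k)) := by
    rw [Matrix.submatrix_apply, hgl]
    simp [mat1]
  have h2 : (mat1 c a).submatrix g g (Fin.last k) (Fin.last k) ≠ 0 := by rw [h1]; exact hD.ne'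
  rw [det_last _ h2, h1]
  congr 2
  ext i j
  have hi : (Fin.natAdd m i).castSucc ≠ Fin.last (m + k) := (Fin.castSucc_lt_last _).ne
  have hj : Fin.last (m + k) ≠ (Fin.natAdd m j).castSucc := (Fin.castSucc_lt_last _).ne'
  rw [Matrix.of_apply, Matrix.submatrix_apply, Matrix.submatrix_apply, Matrix.submatrix_apply,
    Matrix.submatrix_apply, hg, hg, hgl]
  simp only [mat1, ael, Matrix.of_apply, if_neg hi, if_neg hj, Fin.castSucc_inj]
  ring

end step

/-- `v` loses mass or has an edge to a vertex of smaller rank -/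
def Rk {n : ℕ} (p c : Fin n → ℝ) (a : Fin n → Fin n → ℝ) (ρ : Fin n → ℕ) (v : Fin n) : Prop :=
  (∑ w, a v w * p w < c v * p v) ∨ ∃ w, ρ w < ρ v ∧ 0 < a v w

theorem Good.lt_of_Rk {n : ℕ} {p c : Fin n → ℝ} {b : Fin n → Fin n → T → ℂ}
    {a : Fin n → Fin n → ℝ} (hG : Good χ p c b a) {ρ : Fin n → ℕ} {v : Fin n}
    (h : Rk p c a ρ v) : a v v < c v := by
  have hp := hG.pos v
  have hn : ∀ w, 0 ≤ a v w * p w := fun w => mul_nonneg (hG.anonneg _ _) (hG.pos _).le
  suffices hs : a v v * p v < c v * p v from lt_of_mul_lt_mul_right hs hp.le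
  rcases h with h | ⟨w, hw, ha⟩
  · refine lt_of_le_of_lt ?_ h
    exact Finset.single_le_sum (f := fun w => a v w * p w) (fun w _ => hn w) (Finset.mem_univ v)
  · have hwv : w ≠ v := by rintro rfl; exact lt_irrefl _ hw
    refine lt_of_lt_of_le ?_ (hG.dom v)
    have h1 : ∑ x ∈ ({w, v} : Finset (Fin n)), a v x * p x ≤ ∑ x, a v x * p x :=
      Finset.sum_le_sum_of_subset_of_nonneg (Finset.subset_univ _) fun x _ _ => hn x
    rw [Finset.sum_pair hwv] at h1
    have h2 : 0 < a v w * p w := mul_pos ha (hG.pos _)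
    linarith

/-- the rank condition is preserved -/
theorem Rk.elim {n : ℕ} {p c : Fin (n + 1) → ℝ} {b : Fin (n + 1) → Fin (n + 1) → T → ℂ}
    {a : Fin (n + 1) → Fin (n + 1) → ℝ} (hG : Good χ p c b a) {ρ : Fin (n + 1) → ℕ}
    (hl : Rk p c a ρ (Fin.last n)) {v : Fin n} (hv : Rk p c a ρ v.castSucc) :
    Rk (fun v : Fin n => p v.castSucc) (fun v => c v.castSucc) (ael c a) (fun v => ρ v.castSucc) v := by
  have hn := hG.lt_of_Rk hl
  have hD : 0 < c (Fin.last n) - a (Fin.last n) (Fin.last n) := sub_pos.2 hn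
  have hle : ∀ v w : Fin n, a v.castSucc w.castSucc ≤ ael c a v w := fun v w => by
    have : 0 ≤ a v.castSucc (Fin.last n) * a (Fin.last n) w.castSucc *
      (c (Fin.last n) - a (Fin.last n) (Fin.last n))⁻¹ :=
      mul_nonneg (mul_nonneg (hG.anonneg _ _) (hG.anonneg _ _)) (inv_pos.2 hD).le
    unfold ael
    linarith
  rcases hv with hv | ⟨w, hw, ha⟩
  · exact Or.inl (lt_of_le_of_lt (sum_ael_le hG hn v) hv)
  · rcases Fin.eq_castSucc_or_eq_last w with ⟨w, rfl⟩ | rfl
    · exact Or.inr ⟨w, hw, ha.trans_le (hle v w)⟩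
    · rcases hl with hl | ⟨x, hx, hax⟩
      · exact Or.inl (lt_of_lt_of_le (sum_ael_lt hG hl v ha) (hG.dom _))
      · rcases Fin.eq_castSucc_or_eq_last x with ⟨x, rfl⟩ | rfl
        · refine Or.inr ⟨x, hx.trans hw, ?_⟩
          unfold ael
          have h1 : 0 < a v.castSucc (Fin.last n) * a (Fin.last n) x.castSucc *
            (c (Fin.last n) - a (Fin.last n) (Fin.last n))⁻¹ :=
            mul_pos (mul_pos ha hax) (inv_pos.2 hD)
          have := hG.anonneg v.castSucc x.castSucc
          linarith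
        · exact absurd hx (lt_irrefl _)

/-- elimination of all vertices outside the first `m` -/
theorem elim_many (hχ : IsChar χ) (m k : ℕ) : ∀ {p c : Fin (m + k) → ℝ}
    {b : Fin (m + k) → Fin (m + k) → T → ℂ} {a : Fin (m + k) → Fin (m + k) → ℝ}
    (_ : Good χ p c b a) (ρ : Fin (m + k) → ℕ)
    (_ : ∀ v : Fin (m + k), m ≤ v.val → Rk p c a ρ v),
    ∃ (b' : Fin m → Fin m → T → ℂ) (a' : Fin m → Fin m → ℝ),
      Good χ (fun i => p (Fin.castAdd k i)) (fun i => c (Fin.castAdd k i)) b' a' ∧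
      (∀ i j, Pos χ (fun t => b' i j t - b (Fin.castAdd k i) (Fin.castAdd k j) t)
        (a' i j - a (Fin.castAdd k i) (Fin.castAdd k j))) ∧
      0 < ((mat1 c a).submatrix (Fin.natAdd m) (Fin.natAdd m)).det ∧
      ∀ t, ((mat1 c a).submatrix (Fin.natAdd m) (Fin.natAdd m)).det *
        ‖(mat (fun i => c (Fin.castAdd k i)) b' t).det‖ ≤ ‖(mat c b t).det‖ := by
  induction k with
  | zero =>
    intro p c b a hG ρ hr
    refine ⟨b, a, hG, fun i j => ?_, ?_, fun t => ?_⟩
    · exact (Pos.zero (χ := χ)).congr (fun t => by simp) (by simp)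
    · rw [Matrix.det_fin_zero]; exact one_pos
    · rw [Matrix.det_fin_zero, one_mul]
      rfl
  | succ k ih =>
    intro p c b a hG ρ hr
    have hl : Rk p c a ρ (Fin.last (m + k)) := hr _ (by simp)
    have hn := hG.lt_of_Rk hl
    have hD : 0 < c (Fin.last (m + k)) - a (Fin.last (m + k)) (Fin.last (m + k)) := sub_pos.2 hn
    obtain ⟨b', a', h1, h2, h3, h4⟩ := ih (hG.elim hχ hn) (fun v => ρ v.castSucc)
      (fun v hv => Rk.elim hG hl (hr v.castSucc hv))
    have hdet' : ((mat1 c a).submatrix (Fin.natAdd m) (Fin.natAdd m) :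
        Matrix (Fin (k + 1)) (Fin (k + 1)) ℝ).det =
        (c (Fin.last (m + k)) - a (Fin.last (m + k)) (Fin.last (m + k))) *
        ((mat1 (fun v : Fin (m + k) => c v.castSucc) (ael c a)).submatrix
          (Fin.natAdd m) (Fin.natAdd m)).det :=
      mat1_last hG hn (Fin.natAdd m) (fun i => rfl) rfl
    refine ⟨b', a', h1, fun i j => ?_, ?_, fun t => ?_⟩
    · have h5 := (h2 i j).add (ser_bel (n := m + k) hχ hG hn (Fin.castAdd k i) (Fin.castAdd k j))
      refine h5.congr (fun t => ?_) ?_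
      · simp only [bel]
        rw [show Fin.castAdd (k + 1) i = (Fin.castAdd k i).castSucc from rfl,
          show Fin.castAdd (k + 1) j = (Fin.castAdd k j).castSucc from rfl]
        ring
      · simp only [ael]
        rw [show Fin.castAdd (k + 1) i = (Fin.castAdd k i).castSucc from rfl,
          show Fin.castAdd (k + 1) j = (Fin.castAdd k j).castSucc from rfl]
        ring
    · rw [hdet']
      exact mul_pos hD h3
    · rw [hdet', mul_assoc]
      exact (mul_le_mul_of_nonneg_left (h4 t) hD.le).trans (det_elim hχ hG hn t)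

/-- finite products of functions `(1 + κ1 - κ)⁻¹` -/
inductive Fac (χ : T → Λ → ℂ) : (T → ℂ) → Prop
  | one : Fac χ (fun _ => 1)
  | mul {X κ : T → ℂ} {s : ℝ} : Fac χ X → Pos χ κ s → Fac χ (fun t => X t * (1 + (s : ℂ) - κ t)⁻¹)

/-- elimination around a cycle -/
theorem cycle (hχ : IsChar χ) (m : ℕ) : ∀ {p c : Fin (m + 1) → ℝ}
    {b : Fin (m + 1) → Fin (m + 1) → T → ℂ} {a : Fin (m + 1) → Fin (m + 1) → ℝ}
    (_ : Good χ p c b a) (ω : Fin (m + 1) → T → ℂ) (ω1 : Fin (m + 1) → ℝ)
    (_ : ∀ j, Pos χ (ω j) (ω1 j)) (_ : ∀ j, 0 < ω1 j)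
    (_ : ∀ j : Fin m, Pos χ (fun t => b j.castSucc j.succ t - ω j.castSucc t)
      (a j.castSucc j.succ - ω1 j.castSucc))
    (_ : Pos χ (fun t => b (Fin.last m) 0 t - ω (Fin.last m) t)
      (a (Fin.last m) 0 - ω1 (Fin.last m))),
    ∃ X, Fac χ X ∧ ∀ t, ∏ j, ω1 j - ((∏ j, ω j t) * X t).re ≤ ‖(mat c b t).det‖ := by
  induction m with
  | zero =>
    intro p c b a hG ω ω1 hω hω1 _ hlast
    refine ⟨fun _ => 1, Fac.one, fun t => ?_⟩
    have h1 := hG.dom 0
    have h1 : a 0 0 * p 0 ≤ c 0 * p 0 := by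
      rw [Fin.sum_univ_castSucc] at h1
      simpa using h1
    have h1' : a 0 0 ≤ c 0 := le_of_mul_le_mul_right h1 (hG.pos 0)
    have h2 := hlast.re_le hχ t
    have h3 : (mat c b t).det = (c 0 : ℂ) - b 0 0 t := by
      rw [Matrix.det_fin_one]
      simp [mat]
    rw [h3]
    have h4 := Complex.re_le_norm ((c 0 : ℂ) - b 0 0 t)
    simp only [Complex.sub_re, Complex.ofReal_re] at h4 h2
    have e : (Fin.last 0 : Fin (0 + 1)) = 0 := rfl
    rw [e] at h2
    rw [Fin.prod_univ_castSucc, Fin.prod_univ_castSucc]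
    simp only [Finset.univ_eq_empty, Finset.prod_empty, one_mul, mul_one, e]
    linarith
  | succ m ih =>
    intro p c b a hG ω ω1 hω hω1 hedge hlast
    set L : Fin (m + 1 + 1) := Fin.last (m + 1) with hL
    have haL0 : 0 < a L 0 := by
      have := hlast.nonneg
      have := hω1 L
      linarith
    have hn : a L L < c L := by
      have hp := hG.pos L
      have hnn : ∀ w, 0 ≤ a L w * p w := fun w => mul_nonneg (hG.anonneg _ _) (hG.pos _).le
      suffices hs : a L L * p L < c L * p L from lt_of_mul_lt_mul_right hs hp.le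
      have h0L : (0 : Fin (m + 1 + 1)) ≠ L := by
        rw [hL]
        intro h
        have := congrArg Fin.val h
        simp at this
      refine lt_of_lt_of_le ?_ (hG.dom L)
      have h1 : ∑ x ∈ ({0, L} : Finset (Fin (m + 1 + 1))), a L x * p x ≤ ∑ x, a L x * p x :=
        Finset.sum_le_sum_of_subset_of_nonneg (Finset.subset_univ _) fun x _ _ => hnn x
      rw [Finset.sum_pair h0L] at h1
      have h2 : 0 < a L 0 * p 0 := mul_pos haL0 (hG.pos _)
      linarith
    have hD : 0 < c L - a L L := sub_pos.2 hn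
    -- the new labels
    set i0 : Fin (m + 1 + 1) := (Fin.last m).castSucc with hi0
    let w : T → ℂ := fun t => ω i0 t * ω L t * ((c L : ℂ) - b L L t)⁻¹
    let w1 : ℝ := ω1 i0 * ω1 L * (c L - a L L)⁻¹
    let ω' : Fin (m + 1) → T → ℂ := Fin.snoc (α := fun _ => T → ℂ) (fun j : Fin m => ω j.castSucc.castSucc) w
    let ω1' : Fin (m + 1) → ℝ := Fin.snoc (α := fun _ => ℝ) (fun j : Fin m => ω1 j.castSucc.castSucc) w1
    have hw : Pos χ w w1 := ((hω _).mul hχ (hω _)).mul hχ ((hG.ser _ _).inv hχ hn)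
    have hw1 : 0 < w1 := mul_pos (mul_pos (hω1 _) (hω1 _)) (inv_pos.2 hD)
    obtain ⟨X, hX, hle⟩ := ih (hG.elim hχ hn) ω' ω1' (by
        intro j
        rcases Fin.eq_castSucc_or_eq_last j with ⟨j, rfl⟩ | rfl
        · simp only [ω', ω1', Fin.snoc_castSucc]
          exact hω _
        · simp only [ω', ω1', Fin.snoc_last]
          exact hw) (by
        intro j
        rcases Fin.eq_castSucc_or_eq_last j with ⟨j, rfl⟩ | rfl
        · simp only [ω1', Fin.snoc_castSucc]
          exact hω1 _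
        · simp only [ω1', Fin.snoc_last]
          exact hw1) (by
        intro j
        simp only [ω', ω1', Fin.snoc_castSucc]
        have h1 := (hedge j.castSucc).add (ser_bel hχ hG hn j.castSucc j.succ)
        refine h1.congr (fun t => ?_) ?_
        · simp only [bel, Fin.succ_castSucc]
          ring
        · simp only [ael, Fin.succ_castSucc]
          ring) (by
        simp only [ω', ω1', Fin.snoc_last]
        -- b (i0, 0) + (b (i0, L) b (L, 0) - ω i0 ω L) / (c - b)
        have e0 := hedge (Fin.last m)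
        rw [Fin.succ_last] at e0
        have h1 : Pos χ (fun t => b i0 L t * b L 0 t - ω i0 t * ω L t)
            (a i0 L * a L 0 - ω1 i0 * ω1 L) := by
          have h2 := (e0.mul hχ (hG.ser L 0)).add ((hω i0).mul hχ hlast)
          refine h2.congr (fun t => ?_) ?_
          · ring
          · ring
        have h3 := (hG.ser i0 0).add (h1.mul hχ ((hG.ser L L).inv hχ hn))
        refine h3.congr (fun t => ?_) ?_
        · simp only [bel, w, Fin.castSucc_zero]
          ring
        · simp only [ael, w1, Fin.castSucc_zero]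
          ring)
    have hκ : Pos χ (fun t => ((c L - a L L)⁻¹ : ℝ) * b L L t) ((c L - a L L)⁻¹ * a L L) :=
      (hG.ser L L).smul (inv_pos.2 hD).le
    refine ⟨_, hX.mul hκ, fun t => ?_⟩
    have h1 := mul_le_mul_of_nonneg_left (hle t) hD.le
    refine le_trans ?_ (h1.trans (det_elim hχ hG hn t))
    have hD' : ((c L : ℂ) - a L L) ≠ 0 := by
      have := hD.ne'
      exact_mod_cast this
    have hb' : (c L : ℂ) - b L L t ≠ 0 := by
      intro h
      have := norm_sub_ge hχ (d := c L) (hG.ser L L) t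
      rw [h, norm_zero] at this
      linarith
    have hp1 : ∏ j, ω1' j = (∏ j : Fin m, ω1 j.castSucc.castSucc) * w1 := by
      rw [Fin.prod_univ_castSucc]
      simp only [ω1', Fin.snoc_castSucc, Fin.snoc_last]
    have hp2 : ∏ j, ω' j t = (∏ j : Fin m, ω j.castSucc.castSucc t) * w t := by
      rw [Fin.prod_univ_castSucc]
      simp only [ω', Fin.snoc_castSucc, Fin.snoc_last]
    have hq1 : ∏ j, ω1 j = (c L - a L L) * ∏ j, ω1' j := by
      rw [hp1, Fin.prod_univ_castSucc, Fin.prod_univ_castSucc]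
      simp only [w1, ← hi0, ← hL]
      field_simp
    have hq2 : (∏ j, ω j t) * (X t * (1 + (((c L - a L L)⁻¹ * a L L : ℝ) : ℂ) -
        ((c L - a L L)⁻¹ : ℝ) * b L L t)⁻¹) = ((c L - a L L : ℝ) : ℂ) * ((∏ j, ω' j t) * X t) := by
      rw [hp2, Fin.prod_univ_castSucc, Fin.prod_univ_castSucc]
      simp only [w, ← hi0, ← hL]
      have h5 : (1 + (((c L - a L L)⁻¹ * a L L : ℝ) : ℂ) - ((c L - a L L)⁻¹ : ℝ) * b L L t) =
          ((c L : ℂ) - b L L t) * ((c L : ℂ) - a L L)⁻¹ := by
        push_cast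
        field_simp
        ring
      rw [h5, mul_inv, inv_inv]
      push_cast
      ring
    rw [hq1, hq2, Complex.re_ofReal_mul]
    exact le_of_eq (by ring)

end

end H25.DM
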