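import Pool.Agent.H25.DM.Core
import Pool.Agent.H25.DM.Cyc

/-!
# Irreducible weakly dominant matrices
-/

set_option autoImplicit false

namespace H25.DM

open MeasureTheory Matrix

noncomputable section

variable {T Λ : Type} [AddCommGroup Λ] {χ : T → Λ → ℂ}

/-- the matrix `diag c - b` at the point `t` -/
def matV {V : Type} [DecidableEq V] (c : V → ℝ) (b : V → V → T → ℂ) (t : T) : Matrix V V ℂ :=
  Matrix.of fun v w => (if v = w then (c v : ℂ) else 0) - b v w t

/-- weakly dominant integral data -/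
structure Data (χ : T → Λ → ℂ) {V : Type} [Fintype V] (p c : V → ℝ) (b : V → V → T → ℂ)
    (a : V → V → ℝ) (E : V → V → Λ → Prop) : Prop where
  pos : ∀ v, 0 < p v
  ser : ∀ v w, Pos χ (b v w) (a v w)
  dom : ∀ v, ∑ w, a v w * p w ≤ c v * p v
  cint : ∃ z : V → ℤ, ∀ v, c v = z v
  aint : ∃ z : V → V → ℤ, ∀ v w, a v w = z v w
  edge : ∀ v w l, E v w l → Pos χ (fun t => b v w t - χ t l) (a v w - 1)
  lab : ∀ v w, 0 < a v w → ∃ l, E v w l
  gauge : ∀ v w l, (∀ l', E v w l' → l' = l) → ∀ t, b v w t = a v w * χ t l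

variable {V : Type} [Fintype V] [DecidableEq V] {p c : V → ℝ} {b : V → V → T → ℂ}
    {a : V → V → ℝ} {E : V → V → Λ → Prop}

theorem Data.good (h : Data χ p c b a E) {N : ℕ} (g : Fin N ≃ V) :
    Good χ (fun i => p (g i)) (fun i => c (g i)) (fun i j => b (g i) (g j))
      (fun i j => a (g i) (g j)) where
  pos := fun _ => h.pos _
  ser := fun _ _ => h.ser _ _
  dom := fun v => by
    rw [g.sum_comp (fun w => a (g v) w * p w)]
    exact h.dom _

theorem det_mat {N : ℕ} (g : Fin N ≃ V) (t : T) :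
    (mat (fun i => c (g i)) (fun i j => b (g i) (g j)) t).det = (matV c b t).det := by
  rw [← Matrix.det_submatrix_equiv_self g (matV c b t)]
  congr 1
  ext i j
  simp only [mat, matV, Matrix.of_apply, Matrix.submatrix_apply, g.injective.eq_iff]

theorem one_le_det {N k : ℕ} {c : Fin N → ℝ} {a : Fin N → Fin N → ℝ} (hc : ∃ z : Fin N → ℤ, ∀ v, c v = z v)
    (ha : ∃ z : Fin N → Fin N → ℤ, ∀ v w, a v w = z v w) (f : Fin k → Fin N)
    (h : 0 < ((mat1 c a).submatrix f f).det) : 1 ≤ ((mat1 c a).submatrix f f).det := by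
  obtain ⟨zc, hzc⟩ := hc
  obtain ⟨za, hza⟩ := ha
  set Z : Matrix (Fin k) (Fin k) ℤ := Matrix.of fun i j =>
    (if f i = f j then zc (f i) else 0) - za (f i) (f j) with hZ
  have h1 : (mat1 c a).submatrix f f = (Int.castRingHom ℝ).mapMatrix Z := by
    ext i j
    simp only [mat1, hZ, Matrix.submatrix_apply, Matrix.of_apply, RingHom.mapMatrix_apply,
      Matrix.map_apply, hzc, hza]
    split_ifs <;> simp
  have h2 : ((mat1 c a).submatrix f f).det = ((Z.det : ℤ) : ℝ) := by
    rw [h1, ← RingHom.map_det]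
    simp
  rw [h2] at h ⊢
  have h3 : 0 < Z.det := by exact_mod_cast h
  exact_mod_cast h3

theorem Data.killing (hχ : IsChar χ) (h : Data χ p c b a E) (ρ : V → ℕ)
    (hρ : ∀ v, (∑ w, a v w * p w < c v * p v) ∨ ∃ w, ρ w < ρ v ∧ 0 < a v w) (t : T) :
    1 ≤ ‖(matV c b t).det‖ := by
  obtain ⟨k, hk⟩ : ∃ k, Fintype.card V = k := ⟨_, rfl⟩
  have e0 : Fintype.card V = 0 + k := by omega
  let g : Fin (0 + k) ≃ V := ((Fintype.equivFin V).trans (finCongr e0)).symm
  have hG := h.good g
  obtain ⟨b', a', h1, h2, h3, h4⟩ := elim_many hχ 0 k hG (fun i => ρ (g i)) (by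
    intro v _
    rcases hρ (g v) with h5 | ⟨w, hw, ha⟩
    · left
      rw [g.sum_comp (fun w => a (g v) w * p w)]
      exact h5
    · right
      refine ⟨g.symm w, ?_, ?_⟩
      · simpa using hw
      · simpa using ha)
  have h5 := h4 t
  rw [Matrix.det_fin_zero, norm_one, mul_one, det_mat g t] at h5
  obtain ⟨zc, hzc⟩ := h.cint
  obtain ⟨za, hza⟩ := h.aint
  exact (one_le_det ⟨fun i => zc (g i), fun i => hzc _⟩ ⟨fun i j => za (g i) (g j), fun i j => hza _ _⟩
    _ h3).trans h5

/-- in the case without killing and without nontrivial closed walks the determinant vanishes -/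
theorem Data.vanish (hχ : IsChar χ) [Nonempty V] (h : Data χ p c b a E)
    (heq : ∀ v, ∑ w, a v w * p w = c v * p v) (π : V → Λ)
    (hπ : ∀ u v l, E u v l → l = π v - π u) (t : T) : (matV c b t).det = 0 := by
  rw [← Matrix.exists_mulVec_eq_zero_iff]
  have hne : ∀ l, χ t l ≠ 0 := fun l hl => by
    have := hχ.norm t l
    rw [hl, norm_zero] at this
    exact zero_ne_one this
  refine ⟨fun v => (p v : ℂ) * χ t (-π v), ?_, ?_⟩
  · obtain ⟨v⟩ := ‹Nonempty V›
    intro h0
    have h1 := congrFun h0 v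
    simp only [Pi.zero_apply, mul_eq_zero, Complex.ofReal_eq_zero] at h1
    rcases h1 with h1 | h1
    · exact (h.pos v).ne' h1
    · exact hne _ h1
  · funext v
    rw [Matrix.mulVec, dotProduct, Pi.zero_apply]
    have h1 : ∀ w, matV c b t v w * ((p w : ℂ) * χ t (-π w)) =
        (if v = w then ((c v * p v : ℝ) : ℂ) * χ t (-π v) else 0) -
          ((a v w * p w : ℝ) : ℂ) * χ t (-π v) := by
      intro w
      have h2 := h.gauge v w (π w - π v) (fun l' hl' => hπ _ _ _ hl') t
      have h3 : χ t (-π v) = χ t (π w - π v) * χ t (-π w) := by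
        rw [← hχ.add]; congr 1; abel
      simp only [matV, Matrix.of_apply]
      by_cases hvw : v = w
      · subst hvw
        rw [if_pos rfl, if_pos rfl, h2]
        rw [sub_self, hχ.zero]
        push_cast
        ring
      · rw [if_neg hvw, if_neg hvw, h2, h3]
        push_cast
        ring
    rw [Finset.sum_congr rfl fun w _ => h1 w, Finset.sum_sub_distrib, Finset.sum_ite_eq,
      if_pos (Finset.mem_univ v), ← Finset.sum_mul, ← Complex.ofReal_sum, heq, sub_self]

theorem exists_equiv {m : ℕ} (e : Fin (m + 1) → V) (he : Function.Injective e) :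
    ∃ (k : ℕ) (g : Fin (m + 1 + k) ≃ V), ∀ i, g (Fin.castAdd k i) = e i := by
  classical
  set k := Fintype.card ((Set.range e)ᶜ : Set V) with hk
  refine ⟨k, (finSumFinEquiv.symm.trans (((Equiv.ofInjective e he).sumCongr
    (Fintype.equivFin ((Set.range e)ᶜ : Set V)).symm).trans (Equiv.Set.sumCompl (Set.range e)))), ?_⟩
  intro i
  simp

theorem Data.main [MeasurableSpace T] {μ : Measure T} [IsProbabilityMeasure μ] (hM : IsCharM χ μ)
    (h : Data χ p c b a E) (hirr : Irr fun u v => 0 < a u v)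
    (hne : ∃ t, (matV c b t).det ≠ 0) :
    (∀ t, 1 ≤ ‖(matV c b t).det‖) ∨ ∃ (S : Finset Λ) (d : Λ → ℝ), 0 ∉ S ∧ (∀ l, 0 ≤ d l) ∧
      1 / 10 ≤ ∑ l ∈ S, d l ∧ ∑ l ∈ S, d l ≤ 1 ∧
      ∀ t, ∑ l ∈ S, d l * (1 - (χ t l).re) ≤ ‖(matV c b t).det‖ := by
  classical
  have hχ := hM.toIsChar
  have hirr' : Irr fun u v => ∃ l, E u v l := fun S hS hcl => hirr S hS fun v hv w hw =>
    hcl v hv w (h.lab v w hw)
  rcases isEmpty_or_nonempty V with hV | hV
  · left
    exact h.killing hχ (fun _ => 0) (fun v => (hV.false v).elim)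
  by_cases hk : ∃ v, ∑ w, a v w * p w < c v * p v
  · left
    obtain ⟨ρ, hρ⟩ := hirr.rank (Z := {v | ∑ w, a v w * p w < c v * p v}) hk
    refine h.killing hχ ρ fun v => ?_
    by_cases hv : ∑ w, a v w * p w < c v * p v
    · exact Or.inl hv
    · obtain ⟨w, hw1, hw2⟩ := hρ v hv
      exact Or.inr ⟨w, hw2, hw1⟩
  push Not at hk
  have heq : ∀ v, ∑ w, a v w * p w = c v * p v := fun v => le_antisymm (h.dom v) (hk v)
  right
  -- a nontrivial closed walk
  have hcl : ∃ (v : V) (l : Λ) (n : ℕ), l ≠ 0 ∧ Wk E v v l n := by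
    by_contra hcon
    push Not at hcon
    obtain ⟨π, hπ⟩ := potential hirr'.conn (fun v l n hw => by
      by_contra hl
      exact hcon v l n hl hw)
    obtain ⟨t, ht⟩ := hne
    exact ht (h.vanish hχ heq π hπ t)
  obtain ⟨m, e, lab, hinj, hed, hlast, hsum⟩ := simple_cycle hcl
  obtain ⟨k, g, hg⟩ := exists_equiv e hinj
  obtain ⟨ρ, hρ⟩ := hirr.rank (Z := Set.range e) ⟨e 0, 0, rfl⟩
  have hG := h.good g
  obtain ⟨b', a', h1, h2, h3, h4⟩ := elim_many hχ (m + 1) k hG (fun i => ρ (g i)) (by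
    intro v hv
    right
    have hv' : g v ∉ Set.range e := by
      rintro ⟨i, hi⟩
      rw [← hg i] at hi
      have h5 := g.injective hi
      have h6 := congrArg Fin.val h5
      simp only [Fin.val_castAdd] at h6
      have := i.isLt
      omega
    obtain ⟨w, hw1, hw2⟩ := hρ _ hv'
    refine ⟨g.symm w, ?_, ?_⟩
    · simpa using hw2
    · simpa using hw1)
  have hE : ∀ (i j : Fin (m + 1)) (l : Λ), E (e i) (e j) l →
      Pos χ (fun t => b' i j t - χ t l) (a' i j - 1) := by
    intro i j l hl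
    have h5 := (h2 i j).add (h.edge _ _ l hl)
    refine h5.congr (fun t => ?_) ?_
    · rw [hg, hg]; ring
    · rw [hg, hg]; ring
  obtain ⟨X, hX, hle⟩ := cycle hχ m h1 (fun j t => χ t (lab j)) (fun _ => 1)
    (fun j => Pos.single _) (fun _ => one_pos) (fun j => hE _ _ _ (hed j)) (hE _ _ _ hlast)
  have hprod : ∀ t, ∏ j, χ t (lab j) = χ t (∑ j, lab j) := by
    intro t
    have : ∀ s : Finset (Fin (m + 1)), ∏ j ∈ s, χ t (lab j) = χ t (∑ j ∈ s, lab j) := by
      intro s
      induction s using Finset.induction_on with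
      | empty => simp [hχ.zero]
      | insert i s hi ih => rw [Finset.prod_insert hi, Finset.sum_insert hi, ih, hχ.add]
    exact this Finset.univ
  obtain ⟨S, d, hS, hd, hd1, hd2, hd3⟩ := core hM hX hsum
  refine ⟨S, d, hS, hd, hd1, hd2, fun t => ?_⟩
  obtain ⟨zc, hzc⟩ := h.cint
  obtain ⟨za, hza⟩ := h.aint
  have hK := one_le_det ⟨fun i => zc (g i), fun i => hzc _⟩
    ⟨fun i j => za (g i) (g j), fun i j => hza _ _⟩ _ h3
  have h5 := hle t
  simp only [Finset.prod_const_one] at h5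
  rw [hprod t] at h5
  have h6 := h4 t
  rw [det_mat g t] at h6
  refine (hd3 t).trans (h5.trans (le_trans ?_ h6))
  exact le_mul_of_one_le_left (norm_nonneg _) hK

end

end H25.DM
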