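import Pool.Agent.H25.DM.Torus

/-!
# Weakly dominated matrices of integer polynomials
-/

set_option autoImplicit false

namespace H25.DM

open MeasureTheory Matrix Pool.Agent.H261R2.CM MvPolynomial

noncomputable section

section fin

variable {T Λ : Type} [AddCommGroup Λ] {χ : T → Λ → ℂ}

theorem Pos.fin {ι : Type} (s : Finset ι) (w : ι → ℝ) (hw : ∀ i ∈ s, 0 ≤ w i) (lab : ι → Λ) :
    Pos χ (fun t => ∑ i ∈ s, (w i : ℂ) * χ t (lab i)) (∑ i ∈ s, w i) :=
  (Pos.sum s (f := fun i t => (w i : ℂ) * χ t (lab i)) (a := fun i => w i * 1)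
    fun i hi => (Pos.single (χ := χ) (lab i)).smul (hw i hi)).congr (fun _ => rfl) (by simp)

theorem Pos.fin_sub {ι : Type} [DecidableEq ι] (s : Finset ι) (w : ι → ℝ) (hw : ∀ i ∈ s, 1 ≤ w i)
    (lab : ι → Λ) {i : ι} (hi : i ∈ s) :
    Pos χ (fun t => ∑ i ∈ s, (w i : ℂ) * χ t (lab i) - χ t (lab i)) (∑ i ∈ s, w i - 1) := by
  have h1 := Pos.fin (χ := χ) s (fun j => w j - if j = i then 1 else 0) (fun j hj => by
    have := hw j hj
    split_ifs <;> linarith) lab
  refine h1.congr (fun t => ?_) ?_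
  · have h2 : ∀ j ∈ s, ((w j - if j = i then 1 else 0 : ℝ) : ℂ) * χ t (lab j) =
        (w j : ℂ) * χ t (lab j) - if j = i then χ t (lab j) else 0 := by
      intro j _
      split_ifs <;> push_cast <;> ring
    rw [Finset.sum_congr rfl h2, Finset.sum_sub_distrib, Finset.sum_ite_eq' s i, if_pos hi]
  · rw [Finset.sum_sub_distrib, Finset.sum_ite_eq' s i, if_pos hi]

end fin

variable {k : ℕ}

/-- the length -/
def len (F : MvPolynomial (Fin k) ℤ) : ℤ := ∑ s ∈ F.support, |F.coeff s|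

theorem len_nonneg (F : MvPolynomial (Fin k) ℤ) : 0 ≤ len F :=
  Finset.sum_nonneg fun _ _ => abs_nonneg _

theorem eq_zero_of_len {F : MvPolynomial (Fin k) ℤ} (h : len F = 0) : F = 0 := by
  by_contra hne
  obtain ⟨s, hs⟩ := MvPolynomial.support_nonempty.2 hne
  have h1 := (Finset.sum_eq_zero_iff_of_nonneg (fun s _ => abs_nonneg (F.coeff s))).1 h s hs
  rw [abs_eq_zero] at h1
  exact MvPolynomial.mem_support_iff.1 hs h1

/-- the label of a monomial -/
def lb (s : Fin k →₀ ℕ) (u : ℤˣ) (P : MvPolynomial (Fin k) ℤ) (m : Fin k →₀ ℕ) : Lam k :=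
  (fun i => (m i : ℤ) - (s i : ℤ),
    Additive.ofMul (if 0 < -((u : ℤ) * P.coeff m) then (1 : ℤˣ) else -1))

/-- the row factor -/
def rf (s : Fin k →₀ ℕ) (u : ℤˣ) (t : Fin k → ℝ) : ℂ :=
  ((u : ℤ) : ℂ) * ∏ i, J.zz t i ^ (-(s i : ℤ))

theorem norm_rf (s : Fin k →₀ ℕ) (u : ℤˣ) (t : Fin k → ℝ) : ‖rf s u t‖ = 1 := by
  unfold rf
  rw [norm_mul, norm_prod]
  have h1 : ∀ i, ‖J.zz t i ^ (-(s i : ℤ))‖ = 1 := fun i => by
    rw [norm_zpow, J.norm_zz, _root_.one_zpow]
  simp only [h1, Finset.prod_const_one, mul_one]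
  rcases Int.units_eq_one_or u with h | h <;> rw [h] <;> simp

theorem sg_lb (s : Fin k →₀ ℕ) (u : ℤˣ) (P : MvPolynomial (Fin k) ℤ) (m : Fin k →₀ ℕ) :
    -(((u : ℤ) : ℝ) * ((P.coeff m : ℤ) : ℝ)) = |((P.coeff m : ℤ) : ℝ)| * sg (lb s u P m).2 := by
  have h0 : |((u : ℤ) * P.coeff m)| = |P.coeff m| := by
    rcases Int.units_eq_one_or u with h | h <;> rw [h] <;> simp
  have h1 : |((P.coeff m : ℤ) : ℝ)| = |(((u : ℤ) : ℝ) * ((P.coeff m : ℤ) : ℝ))| := by
    have : ((|((u : ℤ) * P.coeff m)| : ℤ) : ℝ) = ((|P.coeff m| : ℤ) : ℝ) := by rw [h0]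
    push_cast at this
    exact this.symm
  rw [h1]
  unfold lb sg
  by_cases h : 0 < -((u : ℤ) * P.coeff m)
  · have h2 : (0 : ℝ) < -(((u : ℤ) : ℝ) * ((P.coeff m : ℤ) : ℝ)) := by exact_mod_cast h
    simp only [if_pos h, toMul_ofMul, Units.val_one, Int.cast_one, mul_one]
    rw [abs_of_neg (by linarith)]
  · have h2 : (-(((u : ℤ) : ℝ) * ((P.coeff m : ℤ) : ℝ))) ≤ 0 := by
      have : -((u : ℤ) * P.coeff m) ≤ 0 := not_lt.1 h
      exact_mod_cast this
    simp only [if_neg h, toMul_ofMul, Units.val_neg, Units.val_one, Int.cast_neg, Int.cast_one]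
    rw [abs_of_nonneg (by linarith)]
    ring

theorem rf_mul_tv (s : Fin k →₀ ℕ) (u : ℤˣ) (P : MvPolynomial (Fin k) ℤ) (t : Fin k → ℝ) :
    rf s u t * tv P t = -∑ m ∈ P.support, ((|((P.coeff m : ℤ) : ℝ)| : ℝ) : ℂ) * ch t (lb s u P m) := by
  conv_lhs => rw [P.as_sum]
  rw [J.tv_eq, map_sum, Finset.mul_sum, ← Finset.sum_neg_distrib]
  refine Finset.sum_congr rfl fun m _ => ?_
  rw [← J.tv_eq, J.tv_monomial]
  have h1 := sg_lb s u P m
  have h2 : -(((u : ℤ) : ℂ) * ((P.coeff m : ℤ) : ℂ)) =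
      ((|((P.coeff m : ℤ) : ℝ)| : ℝ) : ℂ) * (sg (lb s u P m).2 : ℂ) := by
    have := congrArg (fun x : ℝ => (x : ℂ)) h1
    push_cast at this
    exact this
  have h3 : ∏ i, J.zz t i ^ ((lb s u P m).1 i) =
      (∏ i, J.zz t i ^ (-(s i : ℤ))) * ∏ i, J.zz t i ^ (m i) := by
    rw [← Finset.prod_mul_distrib]
    refine Finset.prod_congr rfl fun i _ => ?_
    rw [← zpow_natCast, ← zpow_add₀ (zz_ne t i)]
    congr 1
    simp only [lb]
    ring
  unfold rf ch
  rw [h3]
  linear_combination (-(∏ i, J.zz t i ^ (-(s i : ℤ))) * ∏ i, J.zz t i ^ (m i)) * h2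

/-- the sign of the leading coefficient -/
def su (z : ℤ) : ℤˣ := if 0 ≤ z then 1 else -1

theorem su_mul (z : ℤ) : (su z : ℤ) * z = |z| := by
  unfold su
  split_ifs with h
  · simp [abs_of_nonneg h]
  · push Not at h
    simp [abs_of_neg h]

variable {V : Type} [Fintype V] [DecidableEq V]

/-- weakly dominated matrices, the dominating entry of each row being on the diagonal -/
def WD (A : Matrix V V (MvPolynomial (Fin k) ℤ)) (s : V → Fin k →₀ ℕ) (p : V → ℝ) : Prop :=
  (∀ i, 0 < p i) ∧ ∀ i, ∑ j, (len (A i j) : ℝ) * p j ≤ 2 * |(((A i i).coeff (s i) : ℤ) : ℝ)| * p i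

/-- the monomials that are dominated -/
def sp (A : Matrix V V (MvPolynomial (Fin k) ℤ)) (s : V → Fin k →₀ ℕ) (i j : V) :
    Finset (Fin k →₀ ℕ) := if i = j then (A i j).support.erase (s i) else (A i j).support

/-- the dominating coefficient -/
def cc (A : Matrix V V (MvPolynomial (Fin k) ℤ)) (s : V → Fin k →₀ ℕ) (i : V) : ℝ :=
  |(((A i i).coeff (s i) : ℤ) : ℝ)|

/-- the row sign -/
def uu (A : Matrix V V (MvPolynomial (Fin k) ℤ)) (s : V → Fin k →₀ ℕ) (i : V) : ℤˣ :=
  su ((A i i).coeff (s i))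

/-- the labels -/
def lab (A : Matrix V V (MvPolynomial (Fin k) ℤ)) (s : V → Fin k →₀ ℕ) (i j : V)
    (m : Fin k →₀ ℕ) : Lam k := lb (s i) (uu A s i) (A i j) m

/-- the dominated part -/
def bb (A : Matrix V V (MvPolynomial (Fin k) ℤ)) (s : V → Fin k →₀ ℕ) (i j : V)
    (t : Fin k → ℝ) : ℂ := ∑ m ∈ sp A s i j, ((|(((A i j).coeff m : ℤ) : ℝ)| : ℝ) : ℂ) * ch t (lab A s i j m)

/-- the length of the dominated part -/
def aa (A : Matrix V V (MvPolynomial (Fin k) ℤ)) (s : V → Fin k →₀ ℕ) (i j : V) : ℝ :=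
  ∑ m ∈ sp A s i j, |(((A i j).coeff m : ℤ) : ℝ)|

omit [Fintype V] in
theorem aa_eq (A : Matrix V V (MvPolynomial (Fin k) ℤ)) (s : V → Fin k →₀ ℕ) (i j : V) :
    aa A s i j = (len (A i j) : ℝ) - if i = j then cc A s i else 0 := by
  unfold aa sp len cc
  push_cast
  split_ifs with h
  · subst h
    by_cases hs : s i ∈ (A i i).support
    · rw [← Finset.sum_erase_add _ _ hs]
      ring
    · rw [Finset.erase_eq_of_notMem hs]
      have : (A i i).coeff (s i) = 0 := MvPolynomial.notMem_support_iff.1 hs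
      rw [this]
      simp
  · ring

omit [Fintype V] in
theorem one_le_coeff (A : Matrix V V (MvPolynomial (Fin k) ℤ)) (s : V → Fin k →₀ ℕ) (i j : V)
    {m : Fin k →₀ ℕ} (hm : m ∈ sp A s i j) : (1 : ℝ) ≤ |(((A i j).coeff m : ℤ) : ℝ)| := by
  have h1 : m ∈ (A i j).support := by
    unfold sp at hm
    split_ifs at hm
    · exact Finset.mem_of_mem_erase hm
    · exact hm
  have h2 : (1 : ℤ) ≤ |(A i j).coeff m| := Int.one_le_abs (MvPolynomial.mem_support_iff.1 h1)
  exact_mod_cast h2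

omit [Fintype V] in
theorem matV_eq (A : Matrix V V (MvPolynomial (Fin k) ℤ)) (s : V → Fin k →₀ ℕ) (t : Fin k → ℝ) :
    matV (cc A s) (bb A s) t =
      Matrix.of fun i j => rf (s i) (uu A s i) t * (A.map fun P => tv P t) i j := by
  ext i j
  simp only [matV, Matrix.of_apply, Matrix.map_apply]
  rw [rf_mul_tv]
  by_cases h : i = j
  · subst h
    rw [if_pos rfl]
    unfold bb sp
    rw [if_pos rfl]
    by_cases hs : s i ∈ (A i i).support
    · rw [← Finset.sum_erase_add _ _ hs]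
      have h1 : ((|(((A i i).coeff (s i) : ℤ) : ℝ)| : ℝ) : ℂ) * ch t (lb (s i) (uu A s i) (A i i) (s i)) =
          -(cc A s i : ℂ) := by
        have h2 : ch t (lb (s i) (uu A s i) (A i i) (s i)) = -1 := by
          unfold ch lb sg
          have h3 : ¬ (0 < -(((uu A s i : ℤˣ) : ℤ) * (A i i).coeff (s i))) := by
            unfold uu
            rw [su_mul]
            have := abs_nonneg ((A i i).coeff (s i))
            omega
          simp only [if_neg h3]
          simp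
        rw [h2]
        unfold cc
        ring
      rw [h1]
      simp only [lab]
      ring
    · rw [Finset.erase_eq_of_notMem hs]
      have h1 : cc A s i = 0 := by
        unfold cc
        rw [MvPolynomial.notMem_support_iff.1 hs]
        simp
      rw [h1]
      simp only [lab]
      push_cast
      ring
  · rw [if_neg h]
    unfold bb sp
    rw [if_neg h]
    simp only [lab]
    ring

theorem tv_det (A : Matrix V V (MvPolynomial (Fin k) ℤ)) (t : Fin k → ℝ) :
    tv A.det t = (A.map fun P => tv P t).det := by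
  rw [J.tv_eq, RingHom.map_det]
  rfl

theorem norm_det_matV (A : Matrix V V (MvPolynomial (Fin k) ℤ)) (s : V → Fin k →₀ ℕ)
    (t : Fin k → ℝ) : ‖(matV (cc A s) (bb A s) t).det‖ = ‖tv A.det t‖ := by
  rw [matV_eq, Matrix.det_mul_column, norm_mul, norm_prod, tv_det]
  simp only [norm_rf, Finset.prod_const_one, one_mul]

theorem WD.data {A : Matrix V V (MvPolynomial (Fin k) ℤ)} {s : V → Fin k →₀ ℕ} {p : V → ℝ}
    (h : WD A s p) : Data (ch (k := k)) p (cc A s) (bb A s) (aa A s)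
      (fun i j l => ∃ m ∈ sp A s i j, l = lab A s i j m) where
  pos := h.1
  ser := fun i j => Pos.fin _ _ (fun m _ => abs_nonneg _) _
  dom := fun i => by
    have h1 := h.2 i
    have h2 : ∑ j, aa A s i j * p j = ∑ j, (len (A i j) : ℝ) * p j - cc A s i * p i := by
      rw [Finset.sum_congr rfl fun j _ => by rw [aa_eq A s i j, sub_mul, ite_mul, zero_mul],
        Finset.sum_sub_distrib, Finset.sum_ite_eq, if_pos (Finset.mem_univ i)]
    rw [h2]
    unfold cc
    linarith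
  cint := ⟨fun i => |(A i i).coeff (s i)|, fun i => by unfold cc; push_cast; rfl⟩
  aint := ⟨fun i j => ∑ m ∈ sp A s i j, |(A i j).coeff m|, fun i j => by
    unfold aa; push_cast; rfl⟩
  edge := fun i j l ⟨m, hm, hl⟩ => by
    subst hl
    exact Pos.fin_sub _ _ (fun m hm => one_le_coeff A s i j hm) _ hm
  lab := fun i j hpos => by
    have h1 : (sp A s i j).Nonempty := by
      by_contra hne
      rw [Finset.not_nonempty_iff_eq_empty] at hne
      unfold aa at hpos
      rw [hne] at hpos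
      simp at hpos
    obtain ⟨m, hm⟩ := h1
    exact ⟨_, m, hm, rfl⟩
  gauge := fun i j l hl t => by
    unfold bb aa
    push_cast
    rw [Finset.sum_mul]
    refine Finset.sum_congr rfl fun m hm => ?_
    rw [hl _ ⟨m, hm, rfl⟩]

/-- irreducible matrices -/
def IrrM (A : Matrix V V (MvPolynomial (Fin k) ℤ)) : Prop :=
  ∀ S : Set V, S.Nonempty → (∀ i ∈ S, ∀ j, j ∉ S → A i j = 0) → S = Set.univ

theorem irr_height {A : Matrix V V (MvPolynomial (Fin k) ℤ)} {s : V → Fin k →₀ ℕ}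
    {p : V → ℝ} (h : WD A s p) (hirr : IrrM A) (hdet : A.det ≠ 0) :
    mx A.det 1 ≤ Real.log (mM A.det) + Real.log 20 := by
  have hirr' : Irr fun u v => 0 < aa A s u v := by
    intro S hS hcl
    refine hirr S hS fun i hi j hj => ?_
    have hij : i ≠ j := by rintro rfl; exact hj hi
    have h1 : ¬ (0 < aa A s i j) := fun h1 => hj (hcl i hi j h1)
    rw [aa_eq, if_neg hij, sub_zero] at h1
    have h2 : ¬ (0 < len (A i j)) := by
      intro h2; exact h1 (by exact_mod_cast h2)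
    exact eq_zero_of_len (le_antisymm (not_lt.1 h2) (len_nonneg _))
  have hne : ∃ t, (matV (cc A s) (bb A s) t).det ≠ 0 := by
    by_contra hcon
    push Not at hcon
    apply hdet
    refine J.eq_of_tv_eq fun t => ?_
    have h1 := norm_det_matV A s t
    rw [hcon t, norm_zero] at h1
    rw [norm_eq_zero.1 h1.symm, J.tv_eq, map_zero]
  rcases h.data.main ch_isCharM hirr' hne with h1 | ⟨S, d, hS, hd, h1, h2, h3⟩
  · refine height_le_one fun t => ?_
    rw [← norm_det_matV A s t]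
    exact h1 t
  · refine height_le hdet S d hS hd h1 h2 fun t => ?_
    rw [← norm_det_matV A s t]
    exact h3 t

/-- the measures of polynomials with companion one -/
def T1 : Set ℝ := {x : ℝ | ∃ k : ℕ, 1 ≤ k ∧ ∃ F : MvPolynomial (Fin k) ℤ, F ≠ 0 ∧
  mx F 1 ≤ Real.log (mM F) + Real.log 20 ∧ x = mM F}

theorem mM_congr {F G : MvPolynomial (Fin k) ℤ} (h : ∀ t, ‖tv F t‖ = ‖tv G t‖) : mM F = mM G := by
  unfold mM
  simp only [h]

/-- the measures of weakly dominated determinants with companion one -/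
def T2 : Set ℝ := {x : ℝ | ∃ k : ℕ, 1 ≤ k ∧ ∃ (n : ℕ)
  (A : Matrix (Fin n) (Fin n) (MvPolynomial (Fin k) ℤ)) (s : Fin n → Fin k →₀ ℕ) (p : Fin n → ℝ),
  WD A s p ∧ A.det ≠ 0 ∧ mx A.det 1 ≤ Real.log (mM A.det) + Real.log 20 ∧ x = mM A.det}

theorem T2_subset : T2 ⊆ T1 := by
  rintro x ⟨k, hk, n, A, s, p, _, hdet, h, rfl⟩
  exact ⟨k, hk, A.det, hdet, h, rfl⟩

theorem WD.reindex {n : ℕ} (e : Fin n ≃ V) {A : Matrix V V (MvPolynomial (Fin k) ℤ)}
    {s : V → Fin k →₀ ℕ} {p : V → ℝ} (h : WD A s p) :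
    WD (A.submatrix e e) (fun i => s (e i)) (fun i => p (e i)) := by
  refine ⟨fun i => h.1 _, fun i => ?_⟩
  have h1 : ∑ j, ((len ((A.submatrix e e) i j) : ℤ) : ℝ) * p (e j) =
      ∑ j, (len (A (e i) j) : ℝ) * p j :=
    Equiv.sum_comp e (fun j => (len (A (e i) j) : ℝ) * p j)
  rw [h1]
  exact h.2 (e i)

/-- the comparison matrix is a (possibly singular) M-matrix -/
def SD (A : Matrix V V (MvPolynomial (Fin k) ℤ)) (s : V → Fin k →₀ ℕ) : Prop :=
  ∀ ε : ℝ, 0 < ε → ∃ p : V → ℝ, (∀ i, 0 < p i) ∧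
    ∀ i, ∑ j, (len (A i j) : ℝ) * p j ≤ (2 * |(((A i i).coeff (s i) : ℤ) : ℝ)| + ε) * p i

omit [DecidableEq V] in
theorem SD.irr {A : Matrix V V (MvPolynomial (Fin k) ℤ)} {s : V → Fin k →₀ ℕ} (h : SD A s)
    (hirr : IrrM A) : ∃ p : V → ℝ, WD A s p := by
  classical
  rcases isEmpty_or_nonempty V with hV | hV
  · exact ⟨fun _ => 1, fun i => (hV.false i).elim, fun i => (hV.false i).elim⟩
  choose p hp hle using fun n : ℕ => h (1 / ((n : ℝ) + 1)) Nat.one_div_pos_of_nat
  have hsum : ∀ n, 0 < ∑ i, p n i := fun n =>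
    Finset.sum_pos (fun i _ => hp n i) Finset.univ_nonempty
  let q : ℕ → V → ℝ := fun n i => p n i / ∑ j, p n j
  have hq : ∀ n, q n ∈ stdSimplex ℝ V := by
    intro n
    refine ⟨fun i => div_nonneg (hp n i).le (hsum n).le, ?_⟩
    show ∑ i, p n i / ∑ j, p n j = 1
    rw [← Finset.sum_div, div_self (hsum n).ne']
  obtain ⟨x, hx, φ, hφ, hlim⟩ := (isCompact_stdSimplex ℝ V).tendsto_subseq hq
  have hlim' : ∀ i, Filter.Tendsto (fun n => q (φ n) i) Filter.atTop (nhds (x i)) := fun i =>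
    (tendsto_pi_nhds.1 hlim) i
  have hxi : ∀ i, ∑ j, (len (A i j) : ℝ) * x j ≤
      2 * |(((A i i).coeff (s i) : ℤ) : ℝ)| * x i := by
    intro i
    have h1 : Filter.Tendsto (fun n => ∑ j, (len (A i j) : ℝ) * q (φ n) j) Filter.atTop
        (nhds (∑ j, (len (A i j) : ℝ) * x j)) :=
      tendsto_finsetSum _ fun j _ => (hlim' j).const_mul _
    have h2 : Filter.Tendsto (fun n : ℕ => (2 * |(((A i i).coeff (s i) : ℤ) : ℝ)| +
        1 / (((φ n : ℕ) : ℝ) + 1)) * q (φ n) i) Filter.atTop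
        (nhds ((2 * |(((A i i).coeff (s i) : ℤ) : ℝ)| + 0) * x i)) := by
      refine Filter.Tendsto.mul (Filter.Tendsto.const_add _ ?_) (hlim' i)
      exact tendsto_one_div_add_atTop_nhds_zero_nat.comp hφ.tendsto_atTop
    rw [add_zero] at h2
    refine le_of_tendsto_of_tendsto' h1 h2 fun n => ?_
    have h3 := hle (φ n) i
    have h4 : ∑ j, (len (A i j) : ℝ) * q (φ n) j =
        (∑ j, (len (A i j) : ℝ) * p (φ n) j) / ∑ j, p (φ n) j := by
      rw [Finset.sum_div]
      refine Finset.sum_congr rfl fun j _ => ?_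
      simp only [q]
      ring
    have h5 : (2 * |(((A i i).coeff (s i) : ℤ) : ℝ)| + 1 / (((φ n : ℕ) : ℝ) + 1)) * q (φ n) i =
        ((2 * |(((A i i).coeff (s i) : ℤ) : ℝ)| + 1 / (((φ n : ℕ) : ℝ) + 1)) * p (φ n) i) /
          ∑ j, p (φ n) j := by
      simp only [q]
      ring
    rw [h4, h5]
    exact div_le_div_of_nonneg_right h3 (hsum _).le
  refine ⟨x, fun i => ?_, hxi⟩
  by_contra hi
  have h0 : ∀ i, 0 ≤ x i := hx.1
  have hi0 : x i = 0 := le_antisymm (not_lt.1 hi) (h0 i)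
  have h1 := hirr {i | x i = 0} ⟨i, hi0⟩ (by
    intro i hi j hj
    have hi' : x i = 0 := hi
    have hj' : x j ≠ 0 := hj
    have h2 := hxi i
    rw [hi', mul_zero] at h2
    have h3 : ∀ j ∈ Finset.univ, 0 ≤ (len (A i j) : ℝ) * x j := fun j _ =>
      mul_nonneg (by exact_mod_cast len_nonneg _) (h0 j)
    have h4 := (Finset.sum_eq_zero_iff_of_nonneg h3).1 (le_antisymm h2 (Finset.sum_nonneg h3)) j
      (Finset.mem_univ j)
    rcases mul_eq_zero.1 h4 with h5 | h5
    · exact eq_zero_of_len (by exact_mod_cast h5)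
    · exact absurd h5 hj')
  have h2 : ∑ i, x i = 0 := by
    refine Finset.sum_eq_zero fun i _ => ?_
    have : i ∈ (Set.univ : Set V) := trivial
    rw [← h1] at this
    exact this
  rw [hx.2] at h2
  exact one_ne_zero h2

theorem mem_closure_T1 (hk : 1 ≤ k) : ∀ (n : ℕ) (V : Type) [Fintype V] [DecidableEq V],
    Fintype.card V = n → ∀ (A : Matrix V V (MvPolynomial (Fin k) ℤ)) (s : V → Fin k →₀ ℕ),
    SD A s → A.det ≠ 0 → mM A.det ∈ Submonoid.closure T2 := by
  classical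
  intro n
  induction n using Nat.strong_induction_on with
  | _ n ih =>
    intro V _ _ hn A s h hdet
    by_cases hirr : IrrM A
    · obtain ⟨p, h⟩ := h.irr hirr
      set e : Fin (Fintype.card V) ≃ V := (Fintype.equivFin V).symm with he
      have hd : (A.submatrix e e).det = A.det := Matrix.det_submatrix_equiv_self e A
      exact Submonoid.subset_closure ⟨k, hk, _, A.submatrix e e, _, _, h.reindex e,
        by rw [hd]; exact hdet, by rw [hd]; exact irr_height h hirr hdet, by rw [hd]⟩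
    · unfold IrrM at hirr
      push Not at hirr
      obtain ⟨S, hS, hz, hne⟩ := hirr
      have hdt : A.det = (A.toSquareBlockProp fun i => i ∈ S).det *
          (A.toSquareBlockProp fun i => ¬ (i ∈ S)).det :=
        Matrix.twoBlockTriangular_det' A (fun i => i ∈ S) fun i hi j hj => hz i hi j hj
      have hsub : ∀ q : V → Prop, [DecidablePred q] →
          SD (A.toSquareBlockProp q) (fun i => s i.1) := by
        intro q _ ε hε
        obtain ⟨p, hp, hle⟩ := h ε hε
        refine ⟨fun i => p i.1, fun i => hp _, fun i => ?_⟩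
        refine le_trans ?_ (hle i.1)
        have h1 : ∑ j : {j // q j}, (len (A.toSquareBlockProp q i j) : ℝ) * p j.1 =
            ∑ j ∈ Finset.univ.filter q, (len (A i.1 j) : ℝ) * p j :=
          (Finset.sum_subtype (Finset.univ.filter q) (p := q) (fun x => by simp)
            (fun j => (len (A i.1 j) : ℝ) * p j)).symm
        rw [h1]
        exact Finset.sum_le_sum_of_subset_of_nonneg (Finset.filter_subset _ _) fun j _ _ =>
          mul_nonneg (by exact_mod_cast len_nonneg _) (hp j).le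
      have hd1 : (A.toSquareBlockProp fun i => i ∈ S).det ≠ 0 := by
        intro h0; rw [h0, zero_mul] at hdt; exact hdet hdt
      have hd2 : (A.toSquareBlockProp fun i => ¬ (i ∈ S)).det ≠ 0 := by
        intro h0; rw [h0, mul_zero] at hdt; exact hdet hdt
      rw [hdt, mM_mul _ _ hd1 hd2]
      have hc1 : Fintype.card {i // i ∈ S} < n := by
        rw [← hn]
        obtain ⟨x, hx⟩ := (Set.ne_univ_iff_exists_notMem S).1 hne
        exact Fintype.card_subtype_lt hx
      have hc2 : Fintype.card {i // ¬ (i ∈ S)} < n := by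
        rw [← hn]
        obtain ⟨x, hx⟩ := hS
        exact Fintype.card_subtype_lt (x := x) (by simpa using hx)
      exact mul_mem (ih _ hc1 _ rfl _ _ (hsub _) hd1) (ih _ hc2 _ rfl _ _ (hsub _) hd2)

open Pool.Agent.TH845.KN in
theorem BC_T1 : BC T1 := by
  intro B
  refine ⟨Real.log B + Real.log 20, ?_⟩
  rintro x ⟨⟨k, hk, F, hF, h, rfl⟩, hB⟩
  refine ⟨k, hk, F, 1, hF, one_ne_zero, isRelPrime_one_right, h.trans ?_, rfl⟩
  have h1 := Real.log_le_log (lt_of_lt_of_le one_pos (one_le_mM F hF)) (le_of_lt hB)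
  linarith

end

end H25.DM
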