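import Mathlib

/-!
# Functions with nonnegative coefficients in a family of characters
-/

set_option autoImplicit false

namespace H25.DM

open scoped BigOperators

noncomputable section

variable {T Λ : Type} [AddCommGroup Λ]

set_option linter.unusedSectionVars false
set_option linter.unnecessarySimpa false

/-- a family of unitary characters of `Λ` -/
structure IsChar (χ : T → Λ → ℂ) : Prop where
  zero : ∀ t, χ t 0 = 1
  add : ∀ t a b, χ t (a + b) = χ t a * χ t b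
  norm : ∀ t a, ‖χ t a‖ = 1

/-- `f` is the sum of a series of characters with nonnegative coefficients of sum `a` -/
def Pos (χ : T → Λ → ℂ) (f : T → ℂ) (a : ℝ) : Prop :=
  ∃ c : Λ → ℝ, (∀ l, 0 ≤ c l) ∧ HasSum c a ∧ ∀ t, HasSum (fun l => (c l : ℂ) * χ t l) (f t)

variable {χ : T → Λ → ℂ}

theorem Pos.congr {f g : T → ℂ} {a b : ℝ} (h : Pos χ f a) (hf : ∀ t, f t = g t) (hab : a = b) :
    Pos χ g b := by
  have : f = g := funext hf
  subst this; subst hab; exact h

theorem Pos.nonneg {f : T → ℂ} {a : ℝ} (h : Pos χ f a) : 0 ≤ a := by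
  obtain ⟨c, hc, h1, -⟩ := h
  exact h1.nonneg hc

theorem Pos.norm_le (hχ : IsChar χ) {f : T → ℂ} {a : ℝ} (h : Pos χ f a) (t : T) : ‖f t‖ ≤ a := by
  obtain ⟨c, hc, h1, h2⟩ := h
  have h3 : ∀ l, ‖(c l : ℂ) * χ t l‖ = c l := by
    intro l
    rw [norm_mul, hχ.norm, mul_one, Complex.norm_real, Real.norm_eq_abs, abs_of_nonneg (hc l)]
  rw [← (h2 t).tsum_eq, ← h1.tsum_eq]
  refine (norm_tsum_le_tsum_norm ?_).trans (le_of_eq ?_)
  · simp only [h3]; exact h1.summable
  · simp only [h3]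

theorem Pos.re_le (hχ : IsChar χ) {f : T → ℂ} {a : ℝ} (h : Pos χ f a) (t : T) : (f t).re ≤ a :=
  (Complex.re_le_norm _).trans (h.norm_le hχ t)

theorem Pos.zero : Pos χ (fun _ => 0) 0 :=
  ⟨fun _ => 0, fun _ => le_rfl, hasSum_zero, fun t => by simpa using hasSum_zero⟩

theorem Pos.single (l : Λ) : Pos χ (fun t => χ t l) 1 := by
  classical
  refine ⟨fun m => if m = l then 1 else 0, fun m => by dsimp only; split_ifs <;> norm_num, ?_, ?_⟩
  · exact hasSum_ite_eq l (1 : ℝ)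
  · intro t
    have : (fun m => (((if m = l then (1 : ℝ) else 0) : ℝ) : ℂ) * χ t m) =
        fun m => if m = l then χ t l else 0 := by
      funext m
      split_ifs with h
      · rw [h]; simp
      · simp
    rw [this]
    exact hasSum_ite_eq l (χ t l)

theorem Pos.add {f g : T → ℂ} {a b : ℝ} (hf : Pos χ f a) (hg : Pos χ g b) :
    Pos χ (fun t => f t + g t) (a + b) := by
  obtain ⟨c, hc, h1, h2⟩ := hf
  obtain ⟨d, hd, h3, h4⟩ := hg
  refine ⟨fun l => c l + d l, fun l => add_nonneg (hc l) (hd l), h1.add h3, fun t => ?_⟩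
  have := (h2 t).add (h4 t)
  refine this.congr_fun ?_ |> id
  intro l
  push_cast
  ring

theorem Pos.smul {f : T → ℂ} {a : ℝ} (hf : Pos χ f a) {r : ℝ} (hr : 0 ≤ r) :
    Pos χ (fun t => (r : ℂ) * f t) (r * a) := by
  obtain ⟨c, hc, h1, h2⟩ := hf
  refine ⟨fun l => r * c l, fun l => mul_nonneg hr (hc l), h1.mul_left r, fun t => ?_⟩
  have h3 := (h2 t).mul_left (r : ℂ)
  have h4 : (fun l => ((r * c l : ℝ) : ℂ) * χ t l) = fun l => (r : ℂ) * ((c l : ℂ) * χ t l) := by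
    funext l
    push_cast
    ring
  rw [h4]
  exact h3

theorem Pos.sum {ι : Type*} (s : Finset ι) {f : ι → T → ℂ} {a : ι → ℝ}
    (h : ∀ i ∈ s, Pos χ (f i) (a i)) : Pos χ (fun t => ∑ i ∈ s, f i t) (∑ i ∈ s, a i) := by
  classical
  induction s using Finset.induction_on with
  | empty => simpa using (Pos.zero (χ := χ))
  | insert i s hi ih =>
    have h1 := (h i (Finset.mem_insert_self _ _)).add
      (ih fun j hj => h j (Finset.mem_insert_of_mem hj))
    refine h1.congr (fun t => ?_) ?_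
    · rw [Finset.sum_insert hi]
    · rw [Finset.sum_insert hi]

theorem Pos.mul (hχ : IsChar χ) {f g : T → ℂ} {a b : ℝ} (hf : Pos χ f a) (hg : Pos χ g b) :
    Pos χ (fun t => f t * g t) (a * b) := by
  obtain ⟨c, hc, h1, h2⟩ := hf
  obtain ⟨d, hd, h3, h4⟩ := hg
  -- the equivalence `(l, m) ↦ (m, l - m)`
  let e : Λ × Λ ≃ Λ × Λ :=
    { toFun := fun x => (x.2, x.1 - x.2)
      invFun := fun x => (x.1 + x.2, x.1)
      left_inv := fun x => by simp
      right_inv := fun x => by simp }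
  have hs : Summable fun x : Λ × Λ => c x.1 * d x.2 :=
    h1.summable.mul_of_nonneg h3.summable hc hd
  have h5 : HasSum (fun x : Λ × Λ => c x.1 * d x.2) (a * b) := h1.mul h3 hs
  have h6 : HasSum (fun x : Λ × Λ => c x.2 * d (x.1 - x.2)) (a * b) := by
    have := (e.hasSum_iff (f := fun x : Λ × Λ => c x.1 * d x.2)).2 h5
    exact this
  have h7 : ∀ l, Summable fun m => c m * d (l - m) := fun l =>
    h6.summable.prod_factor l
  refine ⟨fun l => ∑' m, c m * d (l - m), fun l => tsum_nonneg fun m => mul_nonneg (hc _) (hd _),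
    h6.prod_fiberwise fun l => (h7 l).hasSum, fun t => ?_⟩
  have hs2 : Summable fun x : Λ × Λ => ((c x.1 : ℂ) * χ t x.1) * ((d x.2 : ℂ) * χ t x.2) := by
    refine Summable.of_norm ?_
    have : (fun x : Λ × Λ => ‖((c x.1 : ℂ) * χ t x.1) * ((d x.2 : ℂ) * χ t x.2)‖) =
        fun x : Λ × Λ => c x.1 * d x.2 := by
      funext x
      rw [norm_mul, norm_mul, norm_mul, hχ.norm, hχ.norm, Complex.norm_real, Complex.norm_real,
        Real.norm_eq_abs, Real.norm_eq_abs, abs_of_nonneg (hc _), abs_of_nonneg (hd _)]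
      ring
    rw [this]; exact hs
  have h8 : HasSum (fun x : Λ × Λ => ((c x.1 : ℂ) * χ t x.1) * ((d x.2 : ℂ) * χ t x.2))
      (f t * g t) := (h2 t).mul (h4 t) hs2
  have h9 : HasSum (fun x : Λ × Λ => ((c x.2 : ℂ) * χ t x.2) *
      ((d (x.1 - x.2) : ℂ) * χ t (x.1 - x.2))) (f t * g t) :=
    (e.hasSum_iff (f := fun x : Λ × Λ =>
      ((c x.1 : ℂ) * χ t x.1) * ((d x.2 : ℂ) * χ t x.2))).2 h8
  refine h9.prod_fiberwise fun l => ?_
  have h10 : HasSum (fun m => ((c m * d (l - m) : ℝ) : ℂ) * χ t l)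
      ((((∑' m, c m * d (l - m) : ℝ)) : ℂ) * χ t l) := by
    have := (Complex.hasSum_ofReal.2 (h7 l).hasSum).mul_right (χ t l)
    exact this
  convert h10 using 1
  funext m
  have h11 : χ t l = χ t m * χ t (l - m) := by
    rw [← hχ.add]; congr 1; abel
  rw [h11]
  push_cast
  ring

theorem Pos.pow (hχ : IsChar χ) {f : T → ℂ} {a : ℝ} (hf : Pos χ f a) (n : ℕ) :
    Pos χ (fun t => f t ^ n) (a ^ n) := by
  induction n with
  | zero =>
    refine (Pos.single (χ := χ) 0).congr (fun t => ?_) (by simp)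
    rw [hχ.zero, pow_zero]
  | succ n ih =>
    refine (ih.mul hχ hf).congr (fun t => ?_) ?_
    · rw [pow_succ]
    · rw [pow_succ]

theorem Pos.tsum (hχ : IsChar χ) {f : ℕ → T → ℂ} {a : ℕ → ℝ} (h : ∀ n, Pos χ (f n) (a n))
    (hs : Summable a) {F : T → ℂ} {A : ℝ} (hF : ∀ t, HasSum (fun n => f n t) (F t))
    (hA : HasSum a A) : Pos χ F A := by
  choose c hc h1 h2 using h
  have hsum : Summable fun x : ℕ × Λ => c x.1 x.2 := by
    refine (summable_prod_of_nonneg (fun x => hc _ _)).2 ⟨fun n => (h1 n).summable, ?_⟩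
    simp only [(h1 _).tsum_eq]
    exact hs
  have h3 : HasSum (fun x : ℕ × Λ => c x.1 x.2) A := by
    have h4 := hsum.hasSum.prod_fiberwise fun n => h1 n
    have h5 := h4.unique hA
    rw [← h5]
    exact hsum.hasSum
  have h6 : HasSum (fun x : Λ × ℕ => c x.2 x.1) A :=
    ((Equiv.prodComm Λ ℕ).hasSum_iff (f := fun x : ℕ × Λ => c x.1 x.2)).2 h3
  have h7 : ∀ l, Summable fun n => c n l := fun l => h6.summable.prod_factor l
  refine ⟨fun l => ∑' n, c n l, fun l => tsum_nonneg fun n => hc n l,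
    h6.prod_fiberwise fun l => (h7 l).hasSum, fun t => ?_⟩
  have hs2 : Summable fun x : ℕ × Λ => (c x.1 x.2 : ℂ) * χ t x.2 := by
    refine Summable.of_norm ?_
    have : (fun x : ℕ × Λ => ‖(c x.1 x.2 : ℂ) * χ t x.2‖) = fun x : ℕ × Λ => c x.1 x.2 := by
      funext x
      rw [norm_mul, hχ.norm, mul_one, Complex.norm_real, Real.norm_eq_abs, abs_of_nonneg (hc _ _)]
    rw [this]; exact hsum
  have h8 : HasSum (fun x : ℕ × Λ => (c x.1 x.2 : ℂ) * χ t x.2) (F t) := by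
    have h9 := hs2.hasSum.prod_fiberwise fun n => h2 n t
    have h10 := h9.unique (hF t)
    rw [← h10]
    exact hs2.hasSum
  have h11 : HasSum (fun x : Λ × ℕ => (c x.2 x.1 : ℂ) * χ t x.1) (F t) :=
    ((Equiv.prodComm Λ ℕ).hasSum_iff (f := fun x : ℕ × Λ => (c x.1 x.2 : ℂ) * χ t x.2)).2 h8
  refine h11.prod_fiberwise fun l => ?_
  exact (Complex.hasSum_ofReal.2 (h7 l).hasSum).mul_right (χ t l)

/-- the inverse of `d - f` -/
theorem Pos.inv (hχ : IsChar χ) {f : T → ℂ} {a d : ℝ} (hf : Pos χ f a) (had : a < d) :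
    Pos χ (fun t => ((d : ℂ) - f t)⁻¹) (d - a)⁻¹ := by
  have ha : 0 ≤ a := hf.nonneg
  have hd : 0 < d := lt_of_le_of_lt ha had
  have hr : a / d < 1 := (div_lt_one hd).2 had
  have h1 : HasSum (fun n : ℕ => d⁻¹ * (a / d) ^ n) (d - a)⁻¹ := by
    have h0 := (hasSum_geometric_of_lt_one (div_nonneg ha hd.le) hr).mul_left d⁻¹
    have h00 : d⁻¹ * (1 - a / d)⁻¹ = (d - a)⁻¹ := by
      rw [← mul_inv]
      congr 1
      field_simp
    rw [h00] at h0
    exact h0
  have h2 : ∀ t, HasSum (fun n : ℕ => ((d⁻¹ : ℝ) : ℂ) * (((d⁻¹ : ℝ) : ℂ) * f t) ^ n)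
      ((d : ℂ) - f t)⁻¹ := by
    intro t
    have h3 : ‖((d⁻¹ : ℝ) : ℂ) * f t‖ < 1 := by
      rw [norm_mul, Complex.norm_real, Real.norm_eq_abs, abs_of_pos (inv_pos.2 hd)]
      calc d⁻¹ * ‖f t‖ ≤ d⁻¹ * a := by
            exact mul_le_mul_of_nonneg_left (hf.norm_le hχ t) (inv_pos.2 hd).le
        _ = a / d := by rw [div_eq_inv_mul]
        _ < 1 := hr
    have h0 := (hasSum_geometric_of_norm_lt_one h3).mul_left ((d⁻¹ : ℝ) : ℂ)
    have hd' : (d : ℂ) ≠ 0 := by exact_mod_cast hd.ne'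
    have h00 : ((d⁻¹ : ℝ) : ℂ) * (1 - ((d⁻¹ : ℝ) : ℂ) * f t)⁻¹ = ((d : ℂ) - f t)⁻¹ := by
      rw [Complex.ofReal_inv, ← mul_inv]
      congr 1
      field_simp
    rw [h00] at h0
    exact h0
  refine Pos.tsum hχ (f := fun n t => ((d⁻¹ : ℝ) : ℂ) * (((d⁻¹ : ℝ) : ℂ) * f t) ^ n)
    (a := fun n => d⁻¹ * (a / d) ^ n) (fun n => ?_) h1.summable h2 h1
  have h4 := (((hf.smul (inv_pos.2 hd).le).pow hχ n).smul (inv_pos.2 hd).le)
  refine h4.congr (fun t => rfl) ?_
  rw [div_eq_inv_mul]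

end

end H25.DM
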