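import Mathlib

/-!
# Positive weights from the spectral radius of a nonnegative matrix
-/

set_option autoImplicit false

namespace H25.DM

open Filter Topology
open scoped ENNReal NNReal

noncomputable section

attribute [local instance] Matrix.linftyOpNormedRing Matrix.linftyOpNormedAlgebra

theorem exists_pow_lt {n : ℕ} (a : Matrix (Fin n) (Fin n) ℂ) {r : ℝ} (hr : 0 < r)
    (h : ∀ z ∈ spectrum ℂ a, ‖z‖ < r) : ∃ m : ℕ, 0 < m ∧ ∀ i, ∑ j, ‖(a ^ m) i j‖ < r ^ m := by
  have : CompleteSpace (Matrix (Fin n) (Fin n) ℂ) := FiniteDimensional.complete ℂ _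
  rcases Nat.eq_zero_or_pos n with h0 | h0
  · subst h0
    exact ⟨1, one_pos, fun i => i.elim0⟩
  have : Nonempty (Fin n) := ⟨⟨0, h0⟩⟩
  have h1 : spectralRadius ℂ a < (r.toNNReal : ℝ≥0∞) := by
    obtain ⟨z, hz, hz2⟩ := spectrum.exists_nnnorm_eq_spectralRadius a
    rw [← hz2]
    have := h z hz
    rw [ENNReal.coe_lt_coe]
    rw [← NNReal.coe_lt_coe, Real.coe_toNNReal _ hr.le]
    exact this
  have h2 := (spectrum.pow_nnnorm_pow_one_div_tendsto_nhds_spectralRadius a).eventually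
    (gt_mem_nhds h1)
  obtain ⟨m, hm, hm1⟩ := (h2.and (eventually_gt_atTop 0)).exists
  refine ⟨m, hm1, fun i => ?_⟩
  have hm0 : (m : ℝ) ≠ 0 := by exact_mod_cast hm1.ne'
  have h3 : (‖a ^ m‖₊ : ℝ≥0∞) < (r.toNNReal : ℝ≥0∞) ^ m := by
    have h4 := ENNReal.rpow_lt_rpow hm (by exact_mod_cast hm1 : (0 : ℝ) < m)
    rw [← ENNReal.rpow_mul, one_div, inv_mul_cancel₀ hm0, ENNReal.rpow_one, ENNReal.rpow_natCast] at h4
    exact h4
  have h5 : ‖a ^ m‖₊ < r.toNNReal ^ m := by exact_mod_cast h3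
  rw [Matrix.linfty_opNNNorm_def] at h5
  have h6 : ∑ j, ‖(a ^ m) i j‖₊ < r.toNNReal ^ m :=
    lt_of_le_of_lt (Finset.le_sup (f := fun i => ∑ j, ‖(a ^ m) i j‖₊) (Finset.mem_univ i)) h5
  rw [← NNReal.coe_lt_coe] at h6
  push_cast at h6
  rwa [Real.coe_toNNReal _ hr.le] at h6

theorem exists_weights {n : ℕ} (M : Matrix (Fin n) (Fin n) ℝ) (hM : ∀ i j, 0 ≤ M i j) {r : ℝ}
    (hr : 0 < r) (h : ∀ z ∈ spectrum ℂ (M.map (fun x : ℝ => (x : ℂ))), ‖z‖ < r) :
    ∃ p : Fin n → ℝ, (∀ i, 0 < p i) ∧ ∀ i, ∑ j, M i j * p j ≤ r * p i := by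
  obtain ⟨m, hm, hlt⟩ := exists_pow_lt _ hr h
  have hpow : ∀ k, (M.map (fun x : ℝ => (x : ℂ))) ^ k = (M ^ k).map (fun x : ℝ => (x : ℂ)) := by
    intro k
    have := map_pow (Complex.ofRealHom.mapMatrix (m := Fin n)) M k
    exact this.symm
  have hnn : ∀ k i j, 0 ≤ (M ^ k) i j := by
    intro k
    induction k with
    | zero => intro i j; rw [pow_zero, Matrix.one_apply]; split_ifs <;> norm_num
    | succ k ih =>
      intro i j
      rw [pow_succ, Matrix.mul_apply]
      exact Finset.sum_nonneg fun l _ => mul_nonneg (ih i l) (hM l j)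
  let u : ℕ → Fin n → ℝ := fun k i => ∑ j, (M ^ k) i j
  have hu0 : ∀ i, u 0 i = 1 := by
    intro i
    simp only [u, pow_zero, Matrix.one_apply, Finset.sum_ite_eq, Finset.mem_univ, if_true]
  have hunn : ∀ k i, 0 ≤ u k i := fun k i => Finset.sum_nonneg fun j _ => hnn k i j
  have hus : ∀ k i, u (k + 1) i = ∑ l, M i l * u k l := by
    intro k i
    simp only [u, pow_succ', Matrix.mul_apply, Finset.mul_sum]
    rw [Finset.sum_comm]
  have hum : ∀ i, u m i ≤ r ^ m := by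
    intro i
    have h1 := (hlt i).le
    rw [hpow] at h1
    refine le_trans (le_of_eq ?_) h1
    refine Finset.sum_congr rfl fun j _ => ?_
    rw [Matrix.map_apply, Complex.norm_real, Real.norm_eq_abs, abs_of_nonneg (hnn m i j)]
  refine ⟨fun i => ∑ k ∈ Finset.range m, u k i / r ^ k, fun i => ?_, fun i => ?_⟩
  · obtain ⟨m', rfl⟩ := Nat.exists_eq_succ_of_ne_zero hm.ne'
    show 0 < ∑ k ∈ Finset.range (m' + 1), u k i / r ^ k
    rw [Finset.sum_range_succ', hu0]
    have : 0 ≤ ∑ k ∈ Finset.range m', u (k + 1) i / r ^ (k + 1) :=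
      Finset.sum_nonneg fun k _ => div_nonneg (hunn _ _) (pow_pos hr _).le
    simp only [pow_zero, div_one]
    linarith
  · show ∑ j, M i j * ∑ k ∈ Finset.range m, u k j / r ^ k ≤ r * ∑ k ∈ Finset.range m, u k i / r ^ k
    have h1 : ∑ j, M i j * ∑ k ∈ Finset.range m, u k j / r ^ k =
        r * ∑ k ∈ Finset.range m, u (k + 1) i / r ^ (k + 1) := by
      simp only [Finset.mul_sum]
      rw [Finset.sum_comm]
      refine Finset.sum_congr rfl fun k _ => ?_
      rw [hus, Finset.sum_div, Finset.mul_sum]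
      refine Finset.sum_congr rfl fun j _ => ?_
      have := (pow_pos hr k).ne'
      rw [pow_succ]
      field_simp
    rw [h1]
    have h2 : ∑ k ∈ Finset.range m, u (k + 1) i / r ^ (k + 1) + u 0 i / r ^ 0 =
        ∑ k ∈ Finset.range m, u k i / r ^ k + u m i / r ^ m := by
      rw [← Finset.sum_range_succ' (fun k => u k i / r ^ k), Finset.sum_range_succ]
    have h3 : u m i / r ^ m ≤ 1 := (div_le_one (pow_pos hr m)).2 (hum i)
    rw [hu0, pow_zero, div_one] at h2
    refine mul_le_mul_of_nonneg_left ?_ hr.le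
    linarith

end

end H25.DM
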