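import Pool.Agent.H25.DM.Irr
import Pool.Agent.H25.MM.R719.TC.Dom

/-!
# The characters of the torus with a sign
-/

set_option autoImplicit false

namespace H25.DM

open MeasureTheory Matrix Pool.Agent.H261R2.CM

noncomputable section

variable {k : ℕ}

/-- exponents with a sign -/
abbrev Lam (k : ℕ) : Type := (Fin k → ℤ) × Additive ℤˣ

/-- the sign -/
def sg (ε : Additive ℤˣ) : ℝ := (((Additive.toMul ε : ℤˣ) : ℤ) : ℝ)

/-- the signed characters of the torus -/
def ch (t : Fin k → ℝ) (l : Lam k) : ℂ := (sg l.2 : ℂ) * ∏ i, J.zz t i ^ (l.1 i)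

theorem sg_zero : sg 0 = 1 := by simp [sg]

theorem sg_add (a b : Additive ℤˣ) : sg (a + b) = sg a * sg b := by
  simp [sg]

theorem sg_cases (a : Additive ℤˣ) : a = 0 ∨ sg a = -1 := by
  rcases Int.units_eq_one_or (Additive.toMul a) with h | h
  · left
    exact h
  · right
    simp [sg, h]

theorem abs_sg (a : Additive ℤˣ) : |sg a| = 1 := by
  rcases sg_cases a with h | h
  · rw [h, sg_zero, abs_one]
  · rw [h]; simp

theorem zz_ne (t : Fin k → ℝ) (i : Fin k) : J.zz t i ≠ 0 := by
  unfold J.zz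
  exact Complex.exp_ne_zero _

theorem ch_isChar : IsChar (ch (k := k)) where
  zero := fun t => by simp [ch, sg_zero]
  add := fun t a b => by
    simp only [ch, Prod.snd_add, Prod.fst_add, sg_add, Pi.add_apply]
    rw [Finset.prod_congr rfl fun i _ => zpow_add₀ (zz_ne t i) (a.1 i) (b.1 i),
      Finset.prod_mul_distrib]
    push_cast
    ring
  norm := fun t a => by
    unfold ch
    rw [norm_mul, norm_prod, Complex.norm_real, Real.norm_eq_abs, abs_sg, one_mul]
    refine Finset.prod_eq_one fun i _ => ?_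
    rw [norm_zpow, J.norm_zz, _root_.one_zpow]

theorem ch_eq_mFourier (t : Fin k → ℝ) (l : Lam k) :
    ch t l = (sg l.2 : ℂ) * UnitAddTorus.mFourier l.1 (F_pt t) := by
  rw [F_mFourier_pt]
  unfold ch J.zz
  congr 1
  refine Finset.prod_congr rfl fun i _ => ?_
  rw [← Complex.exp_int_mul]
  congr 1
  ring

theorem continuous_ch (l : Lam k) : Continuous fun t : Fin k → ℝ => ch t l := by
  simp only [ch_eq_mFourier]
  exact continuous_const.mul ((UnitAddTorus.mFourier l.1).continuous.comp F_continuous_pt)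

theorem int_ch (l : Lam k) : ∫ t in Set.Icc (0 : Fin k → ℝ) 1, ch t l =
    (sg l.2 : ℂ) * if l.1 = 0 then 1 else 0 := by
  simp only [ch_eq_mFourier]
  rw [integral_const_mul, F_int_cube]

theorem integrable_ch (l : Lam k) : Integrable (fun t : Fin k → ℝ => ch t l)
    (volume.restrict (Set.Icc (0 : Fin k → ℝ) 1)) :=
  (continuous_ch l).integrableOn_Icc

theorem ch_isCharM : IsCharM (ch (k := k)) (volume.restrict (Set.Icc (0 : Fin k → ℝ) 1)) where
  toIsChar := ch_isChar
  int := fun l => (integrable_ch l).re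
  avg := fun l hl => by
    have h1 : ∫ t in Set.Icc (0 : Fin k → ℝ) 1, (ch t l).re =
        (∫ t in Set.Icc (0 : Fin k → ℝ) 1, ch t l).re := by
      have := integral_re (integrable_ch l)
      simpa using this
    rw [h1, int_ch]
    by_cases h : l.1 = 0
    · rcases sg_cases l.2 with h2 | h2
      · exact absurd (Prod.ext h h2) hl
      · rw [if_pos h, h2]
        norm_num
    · rw [if_neg h]
      simp
  minus := fun l hl => by
    rcases sg_cases l.2 with h2 | h2
    · have h1 : l.1 ≠ 0 := fun h => hl (Prod.ext h h2)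
      obtain ⟨i, hi⟩ := Function.ne_iff.1 h1
      have hi' : ((l.1 i : ℤ) : ℝ) ≠ 0 := by
        simpa using hi
      refine ⟨Pi.single i (1 / (2 * (l.1 i : ℝ))), ?_⟩
      unfold ch
      rw [h2, sg_zero, Complex.ofReal_one, one_mul, Finset.prod_eq_single i]
      · unfold J.zz
        rw [← Complex.exp_int_mul, Pi.single_eq_same]
        have h3 : (l.1 i : ℂ) * (2 * (Real.pi : ℂ) * Complex.I * ((1 / (2 * (l.1 i : ℝ)) : ℝ) : ℂ)) =
            (Real.pi : ℂ) * Complex.I := by
          have h4 : ((l.1 i : ℤ) : ℂ) ≠ 0 := by exact_mod_cast hi'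
          push_cast
          field_simp
        rw [h3, Complex.exp_pi_mul_I]
      · intro j _ hj
        unfold J.zz
        rw [Pi.single_eq_of_ne hj]
        simp
      · intro h; exact absurd (Finset.mem_univ i) h
    · refine ⟨0, ?_⟩
      unfold ch
      rw [h2]
      have : ∏ i, J.zz (0 : Fin k → ℝ) i ^ (l.1 i) = 1 := by
        refine Finset.prod_eq_one fun i _ => ?_
        unfold J.zz
        simp
      rw [this]
      simp

/-- the binomial with the same absolute value as `1 - ch t l` -/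
def bin (l : Lam k) : MvPolynomial (Fin k) ℤ :=
  MvPolynomial.monomial (Finsupp.equivFunOnFinite.symm fun i => (-(l.1 i)).toNat) 1 -
    MvPolynomial.monomial (Finsupp.equivFunOnFinite.symm fun i => (l.1 i).toNat)
      ((Additive.toMul l.2 : ℤˣ) : ℤ)

theorem norm_bin (l : Lam k) (t : Fin k → ℝ) : ‖tv (bin l) t‖ = ‖1 - ch t l‖ := by
  have h1 : tv (bin l) t = (∏ i, J.zz t i ^ ((-(l.1 i)).toNat)) * (1 - ch t l) := by
    unfold bin
    rw [J.tv_eq, map_sub, ← J.tv_eq, ← J.tv_eq, J.tv_monomial, J.tv_monomial]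
    have h2 : ∏ i, J.zz t i ^ ((l.1 i).toNat) =
        (∏ i, J.zz t i ^ ((-(l.1 i)).toNat)) * ∏ i, J.zz t i ^ (l.1 i) := by
      rw [← Finset.prod_mul_distrib]
      refine Finset.prod_congr rfl fun i _ => ?_
      rw [← zpow_natCast, ← zpow_natCast, ← zpow_add₀ (zz_ne t i)]
      congr 1
      have := Int.toNat_sub_toNat_neg (l.1 i)
      omega
    simp only [Finsupp.equivFunOnFinite_symm_apply_apply]
    rw [h2]
    unfold ch sg
    push_cast
    ring
  rw [h1, norm_mul, norm_prod]
  simp [J.norm_zz]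

theorem bin_ne_zero {l : Lam k} (hl : l ≠ 0) : bin l ≠ 0 := by
  intro h
  obtain ⟨t, ht⟩ := (ch_isCharM (k := k)).minus l hl
  have h1 := norm_bin l t
  rw [h, ht, J.tv_eq, map_zero, norm_zero] at h1
  norm_num at h1

theorem re_eq (l : Lam k) (t : Fin k → ℝ) : 1 - (ch t l).re = ‖tv (bin l) t‖ ^ 2 / 2 := by
  rw [norm_bin, ← Complex.normSq_eq_norm_sq, Complex.normSq_apply]
  have h1 : ‖ch t l‖ ^ 2 = 1 := by rw [ch_isChar.norm]; norm_num
  rw [← Complex.normSq_eq_norm_sq, Complex.normSq_apply] at h1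
  simp only [Complex.sub_re, Complex.one_re, Complex.sub_im, Complex.one_im]
  nlinarith

/-- the companion one -/
theorem height_le {F : MvPolynomial (Fin k) ℤ} (hF : F ≠ 0) (S : Finset (Lam k)) (d : Lam k → ℝ)
    (hS : (0 : Lam k) ∉ S) (hd : ∀ l, 0 ≤ d l) (h1 : 1 / 10 ≤ ∑ l ∈ S, d l)
    (h2 : ∑ l ∈ S, d l ≤ 1)
    (h3 : ∀ t, ∑ l ∈ S, d l * (1 - (ch t l).re) ≤ ‖tv F t‖) :
    mx F 1 ≤ Real.log (mM F) + Real.log 20 := by
  classical
  set P := ∑ l ∈ S, d l with hP
  have hP0 : 0 < P := by linarith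
  have hl0 : ∀ l ∈ S, l ≠ 0 := by rintro l hl rfl; exact hS hl
  have hint : ∀ l ∈ S, Integrable (fun t : Fin k → ℝ => d l / P * Real.log ‖tv (bin l) t‖)
      (volume.restrict (Set.Icc (0 : Fin k → ℝ) 1)) := fun l hl =>
    (F_integrable (bin_ne_zero (hl0 l hl))).const_mul _
  -- the pointwise inequality
  have key : ∀ᵐ t ∂(volume.restrict (Set.Icc (0 : Fin k → ℝ) 1)),
      Real.log (max ‖tv F t‖ ‖tv (1 : MvPolynomial (Fin k) ℤ) t‖) ≤
        Real.log ‖tv F t‖ + (Real.log 20 - 2 * ∑ l ∈ S, d l / P * Real.log ‖tv (bin l) t‖) := by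
    have hall : ∀ᵐ t ∂(volume.restrict (Set.Icc (0 : Fin k → ℝ) 1)), ∀ l ∈ S, tv (bin l) t ≠ 0 :=
      (Finset.eventually_all S).2 fun l hl => F_zero_null (bin_ne_zero (hl0 l hl))
    filter_upwards [F_zero_null hF, hall] with t ht hbt
    have h4 : 0 < ‖tv F t‖ := norm_pos_iff.2 ht
    have h5 : ‖tv (1 : MvPolynomial (Fin k) ℤ) t‖ = 1 := by rw [J.tv_one, norm_one]
    have hpos : ∀ l ∈ S, 0 < ‖tv (bin l) t‖ ^ 2 / 2 := fun l hl => by
      have := norm_pos_iff.2 (hbt l hl)
      positivity
    -- upper bound of the logarithms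
    have hle4 : ∀ l ∈ S, Real.log ‖tv (bin l) t‖ ≤ Real.log 2 := fun l hl =>
      Real.log_le_log (norm_pos_iff.2 (hbt l hl)) (by rw [norm_bin]; exact ch_isChar.norm_one_sub_le t l)
    have hsum : ∑ l ∈ S, d l / P * Real.log ‖tv (bin l) t‖ ≤ Real.log 2 := by
      have h6 : ∑ l ∈ S, d l / P * Real.log ‖tv (bin l) t‖ ≤ ∑ l ∈ S, d l / P * Real.log 2 :=
        Finset.sum_le_sum fun l hl => mul_le_mul_of_nonneg_left (hle4 l hl)
          (div_nonneg (hd l) hP0.le)
      rw [← Finset.sum_mul, ← Finset.sum_div, ← hP, div_self hP0.ne', one_mul] at h6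
      exact h6
    have hlog20 : Real.log 20 = Real.log 5 + 2 * Real.log 2 := by
      rw [show (20 : ℝ) = 5 * (2 * 2) by norm_num, Real.log_mul (by norm_num) (by norm_num),
        Real.log_mul (by norm_num) (by norm_num)]
      ring
    rw [h5]
    rcases le_total 1 ‖tv F t‖ with h6 | h6
    · rw [max_eq_left h6]
      have : 0 < Real.log 5 := Real.log_pos (by norm_num)
      linarith
    · rw [max_eq_right h6, Real.log_one]
      -- Jensen
      have h7 := strictConcaveOn_log_Ioi.concaveOn.le_map_sum (t := S)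
        (w := fun l => d l / P) (p := fun l => ‖tv (bin l) t‖ ^ 2 / 2)
        (fun l _ => div_nonneg (hd l) hP0.le) (by
          rw [← Finset.sum_div, ← hP, div_self hP0.ne']) (fun l hl => hpos l hl)
      simp only [smul_eq_mul] at h7
      have h8 : ∑ l ∈ S, d l / P * (‖tv (bin l) t‖ ^ 2 / 2) =
          (∑ l ∈ S, d l * (1 - (ch t l).re)) / P := by
        rw [Finset.sum_div]
        refine Finset.sum_congr rfl fun l _ => ?_
        rw [re_eq]
        ring
      have h9 : ∑ l ∈ S, d l / P * Real.log (‖tv (bin l) t‖ ^ 2 / 2) =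
          2 * ∑ l ∈ S, d l / P * Real.log ‖tv (bin l) t‖ - Real.log 2 := by
        have h10 : ∀ l ∈ S, d l / P * Real.log (‖tv (bin l) t‖ ^ 2 / 2) =
            2 * (d l / P * Real.log ‖tv (bin l) t‖) - d l / P * Real.log 2 := by
          intro l hl
          have h11 := norm_pos_iff.2 (hbt l hl)
          rw [Real.log_div (by positivity) (by norm_num), Real.log_pow]
          push_cast
          ring
        rw [Finset.sum_congr rfl h10, Finset.sum_sub_distrib, ← Finset.mul_sum,
          ← Finset.sum_mul, ← Finset.sum_div, ← hP, div_self hP0.ne', one_mul]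
      rw [h8, h9] at h7
      have h12 : 0 < ∑ l ∈ S, d l * (1 - (ch t l).re) := by
        have h13 : 0 < ∑ l ∈ S, d l * (‖tv (bin l) t‖ ^ 2 / 2) := by
          by_contra hcon
          push Not at hcon
          have h14 : ∀ l ∈ S, 0 ≤ d l * (‖tv (bin l) t‖ ^ 2 / 2) := fun l hl =>
            mul_nonneg (hd l) (hpos l hl).le
          have h15 := (Finset.sum_eq_zero_iff_of_nonneg h14).1
            (le_antisymm hcon (Finset.sum_nonneg h14))
          have h16 : P = 0 := by
            rw [hP]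
            refine Finset.sum_eq_zero fun l hl => ?_
            rcases mul_eq_zero.1 (h15 l hl) with h17 | h17
            · exact h17
            · exact absurd h17 (hpos l hl).ne'
          exact hP0.ne' h16
        simpa only [re_eq] using h13
      rw [Real.log_div h12.ne' hP0.ne'] at h7
      have h18 : Real.log (∑ l ∈ S, d l * (1 - (ch t l).re)) ≤ Real.log ‖tv F t‖ :=
        Real.log_le_log h12 (h3 t)
      have h19 : -Real.log P ≤ Real.log 10 := by
        rw [← Real.log_inv]
        refine Real.log_le_log (inv_pos.2 hP0) ?_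
        rw [inv_le_comm₀ hP0 (by norm_num)]
        linarith
      have h20 : Real.log 10 = Real.log 5 + Real.log 2 := by
        rw [show (10 : ℝ) = 5 * 2 by norm_num, Real.log_mul (by norm_num) (by norm_num)]
      linarith
  have h4 : 0 ≤ ∑ l ∈ S, d l / P * Real.log (mM (bin l)) :=
    Finset.sum_nonneg fun l hl => mul_nonneg (div_nonneg (hd l) hP0.le)
      (Real.log_nonneg (one_le_mM _ (bin_ne_zero (hl0 l hl))))
  have h5 : ∫ t in Set.Icc (0 : Fin k → ℝ) 1,
      (Real.log ‖tv F t‖ + (Real.log 20 - 2 * ∑ l ∈ S, d l / P * Real.log ‖tv (bin l) t‖)) =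
      Real.log (mM F) + (Real.log 20 - 2 * ∑ l ∈ S, d l / P * Real.log (mM (bin l))) := by
    have h6 : Integrable (fun t : Fin k → ℝ => ∑ l ∈ S, d l / P * Real.log ‖tv (bin l) t‖)
        (volume.restrict (Set.Icc (0 : Fin k → ℝ) 1)) := integrable_finsetSum _ hint
    have h7 : Integrable (fun t : Fin k → ℝ =>
        Real.log 20 - 2 * ∑ l ∈ S, d l / P * Real.log ‖tv (bin l) t‖)
        (volume.restrict (Set.Icc (0 : Fin k → ℝ) 1)) :=
      (integrable_const _).sub (h6.const_mul 2)
    rw [integral_add (F_integrable hF) h7,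
      integral_sub (integrable_const _) (h6.const_mul 2), integral_const_mul,
      integral_finsetSum _ hint, ← log_mM, integral_const, probReal_univ, one_smul]
    congr 3
    refine Finset.sum_congr rfl fun l _ => ?_
    rw [integral_const_mul, ← log_mM]
  have h6 : mx F 1 ≤ ∫ t in Set.Icc (0 : Fin k → ℝ) 1,
      (Real.log ‖tv F t‖ + (Real.log 20 - 2 * ∑ l ∈ S, d l / P * Real.log ‖tv (bin l) t‖)) := by
    unfold mx
    have hmx : Integrable (fun t : Fin k → ℝ =>
        Real.log (max ‖tv F t‖ ‖tv (1 : MvPolynomial (Fin k) ℤ) t‖))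
        (volume.restrict (Set.Icc (0 : Fin k → ℝ) 1)) := by
      have := Pool.Agent.R719.TC.int_hgt hF (fun _ : Fin 1 => (1 : MvPolynomial (Fin k) ℤ))
      simpa using this
    refine integral_mono_ae hmx ((F_integrable hF).add ((integrable_const _).sub
      ((integrable_finsetSum _ hint).const_mul 2))) key
  linarith

/-- a lower bound by one -/
theorem height_le_one {F : MvPolynomial (Fin k) ℤ} (h : ∀ t, 1 ≤ ‖tv F t‖) :
    mx F 1 ≤ Real.log (mM F) + Real.log 20 := by
  have h1 : mx F 1 = Real.log (mM F) := by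
    rw [log_mM]
    unfold mx
    congr 1
    funext t
    rw [J.tv_one, norm_one, max_eq_left (h t)]
  have : 0 < Real.log 20 := Real.log_pos (by norm_num)
  linarith

end

end H25.DM
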